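import Pool.Agent.H43.BZ.Qle4

set_option autoImplicit false

open MeasureTheory Metric Set Filter
open scoped RealInnerProductSpace ENNReal Topology

namespace Pool.Agent.H43.BZ

variable {d : ℕ}

lemma integrable_of_lint {X : Type} [MeasurableSpace X] {μ : Measure X} {g : X → ℝ}
    (hg : Measurable g) (h0 : ∀ x, 0 ≤ g x) (h : ∫⁻ x, ENNReal.ofReal (g x) ∂μ < ∞) :
    Integrable g μ := by
  refine ⟨hg.aestronglyMeasurable, ?_⟩
  rw [hasFiniteIntegral_iff_ofReal (Eventually.of_forall h0)]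
  exact h

lemma lo_finite {γ s K : ℝ} {b : ℝ → ℝ} (hd : 2 ≤ d) (hs : 0 < s) (hγ : 0 ≤ γ) (hK : 0 ≤ K)
    (hb : Ker d s K b) {f : E d → ℝ}
    (hf : Measurable f) (hf0 : ∀ y, 0 ≤ f y) (v : E d)
    (hint : Integrable (fun w => f w * (1 + ‖w‖) ^ (γ + 2 * s))) (n : ℕ) :
    ∫⁻ p : E d × S d, ENNReal.ofReal (Lo γ (bt b n) f v p.1 p.2) ∂(volume.prod (surf d)) < ∞ := by
  obtain ⟨M, hM, hbM⟩ := bt_bdd hd hs hK hb n
  rw [lo_lint (bt_meas hb.meas n) hf hf0 v]
  refine ENNReal.mul_lt_top ENNReal.ofReal_lt_top ?_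
  have h1 : ∀ w : E d, ENNReal.ofReal (f w * ‖v - w‖ ^ γ) *
        ∫⁻ σ : S d, ENNReal.ofReal (bt b n (cosa (v - w) σ)) ∂surf d ≤
      (ENNReal.ofReal ((1 + ‖v‖) ^ γ) * (ENNReal.ofReal M * surf d univ)) *
        ENNReal.ofReal (f w * (1 + ‖w‖) ^ (γ + 2 * s)) := by
    intro w
    have h2 : ∫⁻ σ : S d, ENNReal.ofReal (bt b n (cosa (v - w) σ)) ∂surf d ≤
        ENNReal.ofReal M * surf d univ := by
      rw [← lintegral_const]
      exact lintegral_mono fun σ => ENNReal.ofReal_le_ofReal (hbM _)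
    have h3 : ENNReal.ofReal (f w * ‖v - w‖ ^ γ) ≤ ENNReal.ofReal ((1 + ‖v‖) ^ γ) *
        ENNReal.ofReal (f w * (1 + ‖w‖) ^ (γ + 2 * s)) := by
      rw [← ENNReal.ofReal_mul (by positivity)]
      refine ENNReal.ofReal_le_ofReal ?_
      have hv := norm_nonneg v
      have hw := norm_nonneg w
      have h4 : ‖v - w‖ ≤ (1 + ‖v‖) * (1 + ‖w‖) := by
        have := norm_sub_le v w
        nlinarith [mul_nonneg hv hw]
      have h5 : ‖v - w‖ ^ γ ≤ (1 + ‖v‖) ^ γ * (1 + ‖w‖) ^ γ := by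
        rw [← Real.mul_rpow (by positivity) (by positivity)]
        exact Real.rpow_le_rpow (norm_nonneg _) h4 hγ
      have h6 : (1 + ‖w‖) ^ γ ≤ (1 + ‖w‖) ^ (γ + 2 * s) :=
        Real.rpow_le_rpow_of_exponent_le (by linarith) (by linarith)
      have h7 : 0 ≤ (1 + ‖v‖) ^ γ := by positivity
      calc f w * ‖v - w‖ ^ γ ≤ f w * ((1 + ‖v‖) ^ γ * (1 + ‖w‖) ^ γ) := by
            exact mul_le_mul_of_nonneg_left h5 (hf0 w)
        _ ≤ f w * ((1 + ‖v‖) ^ γ * (1 + ‖w‖) ^ (γ + 2 * s)) := by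
            exact mul_le_mul_of_nonneg_left (mul_le_mul_of_nonneg_left h6 h7) (hf0 w)
        _ = _ := by ring
    calc _ ≤ (ENNReal.ofReal ((1 + ‖v‖) ^ γ) *
        ENNReal.ofReal (f w * (1 + ‖w‖) ^ (γ + 2 * s))) * (ENNReal.ofReal M * surf d univ) :=
          mul_le_mul' h3 h2
      _ = _ := by ring
  refine (lintegral_mono h1).trans_lt ?_
  have hc : ENNReal.ofReal ((1 + ‖v‖) ^ γ) * (ENNReal.ofReal M * surf d univ) < ∞ :=
    ENNReal.mul_lt_top ENNReal.ofReal_lt_top (ENNReal.mul_lt_top ENNReal.ofReal_lt_top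
      (measure_lt_top _ _))
  rw [lintegral_const_mul' _ _ hc.ne]
  refine ENNReal.mul_lt_top hc ?_
  rw [← ofReal_integral_eq_lintegral_ofReal hint]
  · exact ENNReal.ofReal_lt_top
  · exact Eventually.of_forall fun w => mul_nonneg (hf0 _) (Real.rpow_nonneg (by positivity) _)

lemma ga_mir (hr : S_ROT) (hd : 2 ≤ d) {γ : ℝ} {b : ℝ → ℝ} (hb : Measurable b) {f : E d → ℝ}
    (hf : Measurable f) (v : E d) :
    ∫⁻ p : E d × S d, ENNReal.ofReal (Ga γ b f v p.1 (mir (v - p.1) p.2))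
      ∂(volume.prod (surf d)) =
    ∫⁻ p : E d × S d, ENNReal.ofReal (Ga γ b f v p.1 p.2) ∂(volume.prod (surf d)) := by
  have hne : ∀ᵐ w : E d, w ≠ v := by
    have : Nonempty (Fin d) := ⟨⟨0, by omega⟩⟩
    rw [ae_iff]
    simp
  rw [lintegral_prod _ ((Ga_meas hb hf v (mir_meas v)).ennreal_ofReal).aemeasurable,
    lintegral_prod _ ((Ga_meas hb hf v coe_meas).ennreal_ofReal).aemeasurable]
  refine lintegral_congr_ae ?_
  filter_upwards [hne] with w hw
  have hm : Measurable fun σ : E d => ENNReal.ofReal (Ga γ b f v w σ) := by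
    have h1 : Measurable fun σ : E d => post v w σ := by unfold post; fun_prop
    have h2 : Measurable fun σ : E d => post v w (-σ) := by unfold post; fun_prop
    have h3 : Measurable fun σ : E d => cosa (v - w) σ := by unfold cosa; fun_prop
    unfold Ga
    exact (((hf.comp h2).mul (hf.comp h1)).mul (measurable_const.mul (hb.comp h3))).ennreal_ofReal
  exact mir_lint hr (v - w) (sub_ne_zero.2 (Ne.symm hw)) _ hm

theorem QLE (hG : S_GAIN) (hE : S_ERR) (hr : S_ROT) : S_QLE := by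
  intro d hd s γ K hs hs1 hγ hγs hK
  obtain ⟨C, hC, H⟩ := gain_le_loss hG hE hd hs hs1 hK
  refine ⟨C, hC, ?_⟩
  intro b hb f hf hf0 N hN v hv hJ hint
  refine Q_le_of_bt γ b f v _ hJ fun n => ?_
  have hbm := bt_meas hb.meas n
  have hb0 := bt_nonneg hb.nonneg n
  have h1 := H γ hγ hγs b hb f hf hf0 N hN v hv hint n
  have hLf := lo_finite hd hs hγ hK hb hf hf0 v hint n
  have hNP : 0 ≤ N * P d v := by rw [← hv]; exact hf0 v
  set B := C * (N * P d v) * ∫ w, f w * (1 + ‖w‖) ^ (γ + 2 * s) with hB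
  have hB0 : 0 ≤ B := by
    have : 0 ≤ ∫ w, f w * (1 + ‖w‖) ^ (γ + 2 * s) :=
      integral_nonneg fun w => mul_nonneg (hf0 _) (Real.rpow_nonneg (by positivity) _)
    positivity
  have hGf : ∫⁻ p : E d × S d, ENNReal.ofReal (Ga γ (bt b n) f v p.1 p.2)
      ∂(volume.prod (surf d)) < ∞ := h1.trans_lt (ENNReal.add_lt_top.2 ⟨hLf, ENNReal.ofReal_lt_top⟩)
  have hmL := Lo_meas (γ := γ) hbm hf v (coe_meas (d := d))
  have hmG := Ga_meas (γ := γ) hbm hf v (coe_meas (d := d))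
  have hmM := Ga_meas (γ := γ) hbm hf v (mir_meas (d := d) v)
  have hmir := ga_mir hr hd (γ := γ) hbm hf v
  have iL : Integrable (fun p : E d × S d => Lo γ (bt b n) f v p.1 p.2) (volume.prod (surf d)) :=
    integrable_of_lint hmL (fun p => Lo_nonneg hb0 hf0 v p.1 p.2) hLf
  have iG : Integrable (fun p : E d × S d => Ga γ (bt b n) f v p.1 p.2) (volume.prod (surf d)) :=
    integrable_of_lint hmG (fun p => Ga_nonneg hb0 hf0 v p.1 p.2) hGf
  have iM : Integrable (fun p : E d × S d => Ga γ (bt b n) f v p.1 (mir (v - p.1) p.2))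
      (volume.prod (surf d)) :=
    integrable_of_lint hmM (fun p => Ga_nonneg hb0 hf0 v p.1 _) (by rw [hmir]; exact hGf)
  have eG : ∫ p : E d × S d, Ga γ (bt b n) f v p.1 p.2 ∂(volume.prod (surf d)) =
      (∫⁻ p : E d × S d, ENNReal.ofReal (Ga γ (bt b n) f v p.1 p.2)
        ∂(volume.prod (surf d))).toReal :=
    integral_eq_lintegral_of_nonneg_ae (Eventually.of_forall fun p => Ga_nonneg hb0 hf0 v p.1 p.2)
      iG.aestronglyMeasurable
  have eM : ∫ p : E d × S d, Ga γ (bt b n) f v p.1 (mir (v - p.1) p.2) ∂(volume.prod (surf d)) =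
      (∫⁻ p : E d × S d, ENNReal.ofReal (Ga γ (bt b n) f v p.1 p.2)
        ∂(volume.prod (surf d))).toReal := by
    rw [← hmir]
    exact integral_eq_lintegral_of_nonneg_ae
      (Eventually.of_forall fun p => Ga_nonneg hb0 hf0 v p.1 _) iM.aestronglyMeasurable
  have eL : ∫ p : E d × S d, Lo γ (bt b n) f v p.1 p.2 ∂(volume.prod (surf d)) =
      (∫⁻ p : E d × S d, ENNReal.ofReal (Lo γ (bt b n) f v p.1 p.2)
        ∂(volume.prod (surf d))).toReal :=
    integral_eq_lintegral_of_nonneg_ae (Eventually.of_forall fun p => Lo_nonneg hb0 hf0 v p.1 p.2)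
      iL.aestronglyMeasurable
  have h2 : ∫ p, J γ (bt b n) f v p ∂(volume.prod (surf d)) =
      (∫ p : E d × S d, Ga γ (bt b n) f v p.1 p.2 ∂(volume.prod (surf d)) +
        ∫ p : E d × S d, Ga γ (bt b n) f v p.1 (mir (v - p.1) p.2) ∂(volume.prod (surf d))) / 2 -
      ∫ p : E d × S d, Lo γ (bt b n) f v p.1 p.2 ∂(volume.prod (surf d)) := by
    calc ∫ p, J γ (bt b n) f v p ∂(volume.prod (surf d)) =
        ∫ p : E d × S d, ((Ga γ (bt b n) f v p.1 p.2 +
          Ga γ (bt b n) f v p.1 (mir (v - p.1) p.2)) / 2 - Lo γ (bt b n) f v p.1 p.2)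
          ∂(volume.prod (surf d)) :=
          integral_congr_ae (Eventually.of_forall fun p => J_eq γ (bt b n) f v p)
      _ = ∫ p : E d × S d, (Ga γ (bt b n) f v p.1 p.2 +
          Ga γ (bt b n) f v p.1 (mir (v - p.1) p.2)) / 2 ∂(volume.prod (surf d)) -
          ∫ p : E d × S d, Lo γ (bt b n) f v p.1 p.2 ∂(volume.prod (surf d)) :=
          integral_sub ((iG.add iM).div_const 2) iL
      _ = _ := by rw [integral_div, integral_add iG iM]
  rw [h2, eG, eM, eL]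
  have h3 : (∫⁻ p : E d × S d, ENNReal.ofReal (Ga γ (bt b n) f v p.1 p.2)
        ∂(volume.prod (surf d))).toReal ≤ (∫⁻ p : E d × S d,
        ENNReal.ofReal (Lo γ (bt b n) f v p.1 p.2) ∂(volume.prod (surf d))).toReal + B := by
    rw [← ENNReal.toReal_ofReal hB0, ← ENNReal.toReal_add hLf.ne ENNReal.ofReal_ne_top]
    exact ENNReal.toReal_mono (ENNReal.add_lt_top.2 ⟨hLf, ENNReal.ofReal_lt_top⟩).ne h1
  linarith

end Pool.Agent.H43.BZ
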