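import Pool.Agent.H43.BZ.Qle4n
import Pool.Agent.H43.BZ.Qle5

set_option autoImplicit false

open MeasureTheory Metric Set Filter
open scoped RealInnerProductSpace ENNReal Topology

namespace Pool.Agent.H43.BZ

variable {d : ℕ}

lemma lo_finiten {γ s K : ℝ} {b : ℝ → ℝ} (hd : 2 ≤ d) (hs : 0 < s) (hK : 0 ≤ K)
    (hb : Ker d s K b) {f : E d → ℝ}
    (hf : Measurable f) (hf0 : ∀ y, 0 ≤ f y) (v : E d)
    (hint : Integrable (fun w => f w * (‖v - w‖ ^ γ * (1 + ‖w‖) ^ (2 * s)))) (n : ℕ) :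
    ∫⁻ p : E d × S d, ENNReal.ofReal (Lo γ (bt b n) f v p.1 p.2) ∂(volume.prod (surf d)) < ∞ := by
  obtain ⟨M, hM, hbM⟩ := bt_bdd hd hs hK hb n
  rw [lo_lint (bt_meas hb.meas n) hf hf0 v]
  refine ENNReal.mul_lt_top ENNReal.ofReal_lt_top ?_
  have h1 : ∀ w : E d, ENNReal.ofReal (f w * ‖v - w‖ ^ γ) *
        ∫⁻ σ : S d, ENNReal.ofReal (bt b n (cosa (v - w) σ)) ∂surf d ≤
      (ENNReal.ofReal M * surf d univ) *
        ENNReal.ofReal (f w * (‖v - w‖ ^ γ * (1 + ‖w‖) ^ (2 * s))) := by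
    intro w
    have h2 : ∫⁻ σ : S d, ENNReal.ofReal (bt b n (cosa (v - w) σ)) ∂surf d ≤
        ENNReal.ofReal M * surf d univ := by
      rw [← lintegral_const]
      exact lintegral_mono fun σ => ENNReal.ofReal_le_ofReal (hbM _)
    have h3 : ENNReal.ofReal (f w * ‖v - w‖ ^ γ) ≤
        ENNReal.ofReal (f w * (‖v - w‖ ^ γ * (1 + ‖w‖) ^ (2 * s))) := by
      refine ENNReal.ofReal_le_ofReal (mul_le_mul_of_nonneg_left ?_ (hf0 w))
      have h4 : 1 ≤ (1 + ‖w‖) ^ (2 * s) :=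
        Real.one_le_rpow (by linarith [norm_nonneg w]) (by positivity)
      have h5 := Real.rpow_nonneg (norm_nonneg (v - w)) γ
      nlinarith
    calc _ ≤ ENNReal.ofReal (f w * (‖v - w‖ ^ γ * (1 + ‖w‖) ^ (2 * s))) *
          (ENNReal.ofReal M * surf d univ) := mul_le_mul' h3 h2
      _ = _ := by ring
  refine (lintegral_mono h1).trans_lt ?_
  have hc : ENNReal.ofReal M * surf d univ < ∞ :=
    ENNReal.mul_lt_top ENNReal.ofReal_lt_top (measure_lt_top _ _)
  rw [lintegral_const_mul' _ _ hc.ne]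
  refine ENNReal.mul_lt_top hc ?_
  rw [← ofReal_integral_eq_lintegral_ofReal hint]
  · exact ENNReal.ofReal_lt_top
  · exact Eventually.of_forall fun w => mul_nonneg (hf0 _) (mul_nonneg
      (Real.rpow_nonneg (norm_nonneg _) _) (Real.rpow_nonneg (by positivity) _))

theorem QLEn (hG : S_GAINn) (hE : S_ERR) (hr : S_ROT) : S_QLEn := by
  intro d hd s γ K hs hs1 _ hγs hK
  obtain ⟨C, hC, H⟩ := gain_le_lossn hG hE hd hs hs1 hK
  refine ⟨C, hC, ?_⟩
  intro b hb f hf hf0 N hN v hv hJ hint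
  refine Q_le_of_bt γ b f v _ hJ fun n => ?_
  have hbm := bt_meas hb.meas n
  have hb0 := bt_nonneg hb.nonneg n
  have h1 := H γ hγs b hb f hf hf0 N hN v hv (kk_int hf hf0 v hint) n
  have hLf := lo_finiten hd hs hK hb hf hf0 v hint n
  have hNP : 0 ≤ N * P d v := by rw [← hv]; exact hf0 v
  set B := C * (N * P d v) * ∫ w, f w * kk γ s v w with hB
  have hB0 : 0 ≤ B := by
    have : 0 ≤ ∫ w, f w * kk γ s v w :=
      integral_nonneg fun w => mul_nonneg (hf0 _) (kk_nonneg _ _ _ _)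
    positivity
  have hGf : ∫⁻ p : E d × S d, ENNReal.ofReal (Ga γ (bt b n) f v p.1 p.2)
      ∂(volume.prod (surf d)) < ∞ := h1.trans_lt (ENNReal.add_lt_top.2 ⟨hLf, ENNReal.ofReal_lt_top⟩)
  have hmL := Lo_meas (γ := γ) hbm hf v (coe_meas (d := d))
  have hmG := Ga_meas (γ := γ) hbm hf v (coe_meas (d := d))
  have hmM := Ga_meas (γ := γ) hbm hf v (mir_meas (d := d) v)
  have hmir := ga_mir hr hd (γ := γ) hbm hf v
  have iL : Integrable (fun p : E d × S d => Lo γ (bt b n) f v p.1 p.2) (volume.prod (surf d)) :=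
    integrable_of_lint hmL (fun p => Lo_nonneg hb0 hf0 v p.1 p.2) hLf
  have iG : Integrable (fun p : E d × S d => Ga γ (bt b n) f v p.1 p.2) (volume.prod (surf d)) :=
    integrable_of_lint hmG (fun p => Ga_nonneg hb0 hf0 v p.1 p.2) hGf
  have iM : Integrable (fun p : E d × S d => Ga γ (bt b n) f v p.1 (mir (v - p.1) p.2))
      (volume.prod (surf d)) :=
    integrable_of_lint hmM (fun p => Ga_nonneg hb0 hf0 v p.1 _) (by rw [hmir]; exact hGf)
  have eG : ∫ p : E d × S d, Ga γ (bt b n) f v p.1 p.2 ∂(volume.prod (surf d)) =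
      (∫⁻ p : E d × S d, ENNReal.ofReal (Ga γ (bt b n) f v p.1 p.2)
        ∂(volume.prod (surf d))).toReal :=
    integral_eq_lintegral_of_nonneg_ae (Eventually.of_forall fun p => Ga_nonneg hb0 hf0 v p.1 p.2)
      iG.aestronglyMeasurable
  have eM : ∫ p : E d × S d, Ga γ (bt b n) f v p.1 (mir (v - p.1) p.2) ∂(volume.prod (surf d)) =
      (∫⁻ p : E d × S d, ENNReal.ofReal (Ga γ (bt b n) f v p.1 p.2)
        ∂(volume.prod (surf d))).toReal := by
    rw [← hmir]
    exact integral_eq_lintegral_of_nonneg_ae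
      (Eventually.of_forall fun p => Ga_nonneg hb0 hf0 v p.1 _) iM.aestronglyMeasurable
  have eL : ∫ p : E d × S d, Lo γ (bt b n) f v p.1 p.2 ∂(volume.prod (surf d)) =
      (∫⁻ p : E d × S d, ENNReal.ofReal (Lo γ (bt b n) f v p.1 p.2)
        ∂(volume.prod (surf d))).toReal :=
    integral_eq_lintegral_of_nonneg_ae (Eventually.of_forall fun p => Lo_nonneg hb0 hf0 v p.1 p.2)
      iL.aestronglyMeasurable
  have h2 : ∫ p, J γ (bt b n) f v p ∂(volume.prod (surf d)) =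
      (∫ p : E d × S d, Ga γ (bt b n) f v p.1 p.2 ∂(volume.prod (surf d)) +
        ∫ p : E d × S d, Ga γ (bt b n) f v p.1 (mir (v - p.1) p.2) ∂(volume.prod (surf d))) / 2 -
      ∫ p : E d × S d, Lo γ (bt b n) f v p.1 p.2 ∂(volume.prod (surf d)) := by
    calc ∫ p, J γ (bt b n) f v p ∂(volume.prod (surf d)) =
        ∫ p : E d × S d, ((Ga γ (bt b n) f v p.1 p.2 +
          Ga γ (bt b n) f v p.1 (mir (v - p.1) p.2)) / 2 - Lo γ (bt b n) f v p.1 p.2)
          ∂(volume.prod (surf d)) :=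
          integral_congr_ae (Eventually.of_forall fun p => J_eq γ (bt b n) f v p)
      _ = ∫ p : E d × S d, (Ga γ (bt b n) f v p.1 p.2 +
          Ga γ (bt b n) f v p.1 (mir (v - p.1) p.2)) / 2 ∂(volume.prod (surf d)) -
          ∫ p : E d × S d, Lo γ (bt b n) f v p.1 p.2 ∂(volume.prod (surf d)) :=
          integral_sub ((iG.add iM).div_const 2) iL
      _ = _ := by rw [integral_div, integral_add iG iM]
  rw [h2, eG, eM, eL]
  have h3 : (∫⁻ p : E d × S d, ENNReal.ofReal (Ga γ (bt b n) f v p.1 p.2)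
        ∂(volume.prod (surf d))).toReal ≤ (∫⁻ p : E d × S d,
        ENNReal.ofReal (Lo γ (bt b n) f v p.1 p.2) ∂(volume.prod (surf d))).toReal + B := by
    rw [← ENNReal.toReal_ofReal hB0, ← ENNReal.toReal_add hLf.ne ENNReal.ofReal_ne_top]
    exact ENNReal.toReal_mono (ENNReal.add_lt_top.2 ⟨hLf, ENNReal.ofReal_lt_top⟩).ne h1
  linarith

end Pool.Agent.H43.BZ
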