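import Pool.Agent.H658.BZ.ODE
import Pool.Agent.H227.BZ.G2
import Pool.Agent.H348.BZ.G3
import Pool.Agent.H280.BZ.KKI
import Pool.Agent.H84.BZ.FINn
import Pool.Agent.H784.BZ.Supn
import Pool.Agent.H909.BZ.HYDn
import Pool.Agent.H599.BZ.LAMHARD
import Pool.Agent.H415.BZ.LAMLE
import Pool.Agent.H860.BZ.Rate
import Pool.Agent.H289.BZ.Key1
import Pool.Agent.H51.BZ.Key2
import Pool.Agent.H236.BZ.Zon
import Pool.Agent.H337.BZ.Dbl
import Pool.Agent.H401.BZ.ERR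
import Pool.Agent.H181.BZ.CV
import Pool.Agent.H113.BZ.RotNul
import Pool.Agent.H271.BZ.G1
import Pool.Agent.H47.BZ.G4
import Pool.Agent.H215.BZ.Contact
import Pool.Agent.H43.BZ.Qle5n
import Pool.Agent.H43.BZ.G2n
import Pool.Agent.H43.BZ.G3n
import Pool.Agent.H43.BZ.Gainn

/-!
# The pieces of the blow-up criterion put together
-/

set_option autoImplicit false

open MeasureTheory Metric Set Filter Topology
open scoped RealInnerProductSpace ENNReal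

namespace Pool.Agent.H43.BZ.All

open Pool.Agent.H43.BZ

theorem gainn : S_GAINn :=
  Pool.Agent.H43.BZ.GAINn
    (Pool.Agent.H271.BZG1.G1 Pool.Agent.H113.BZ.NUL Pool.Agent.H113.BZ.ROT)
    (Pool.Agent.H43.BZ.G2n.g2n Pool.Agent.H181.BZ.CV)
    (Pool.Agent.H43.BZ.G3n.g3n Pool.Agent.H289.BZ.KEY1 Pool.Agent.H51.BZ.KEY2
      Pool.Agent.H113.BZ.ROT)
    (Pool.Agent.H47.BZ.G4 (Pool.Agent.H337.BZ.DBL Pool.Agent.H236.BZ.Zon.ZON)
      Pool.Agent.H113.BZ.ROT)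

theorem qlen : S_QLEn :=
  Pool.Agent.H43.BZ.QLEn gainn (Pool.Agent.H401.BZ.ERR Pool.Agent.H236.BZ.Zon.ZON)
    Pool.Agent.H113.BZ.ROT

theorem kki : S_KKI := Pool.Agent.H280.BZ.KKI

theorem finn : S_FINn :=
  Pool.Agent.H84.BZ.FINn Pool.Agent.H215.BZ.CON qlen Pool.Agent.H784.BZ.SUPn kki

theorem lamle : S_LAMLE := Pool.Agent.H415.BZ.LAMLE kki

theorem rate : S_RATE := Pool.Agent.H860.BZRate.RATE finn lamle Pool.Agent.H43.BZ.ODE

theorem hydn : S_HYDn := Pool.Agent.H909.BZ.HYDn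

theorem lamhard : S_LAMHARD := Pool.Agent.H599.BZ.LAMHARD

end Pool.Agent.H43.BZ.All
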