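import Pool.Agent.H43.BZ.Stm4

set_option autoImplicit false

open MeasureTheory Metric Set Filter Topology
open scoped RealInnerProductSpace ENNReal

namespace Pool.Agent.H43.BZ.Lams

open Pool.Agent.H43.BZ

lemma kk_scal {d : ℕ} {γ s R : ℝ} (hR : 0 < R) (v w : E d) :
    kk γ s v w = (R ^ γ)⁻¹ * kkR γ s R (R • v) (R • w) := by
  unfold kk kkR
  have h1 : ‖R • v - R • w‖ = R * ‖v - w‖ := by
    rw [← smul_sub, norm_smul, Real.norm_eq_abs, abs_of_pos hR]
  have h2 : ‖R • w‖ = R * ‖w‖ := by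
    rw [norm_smul, Real.norm_eq_abs, abs_of_pos hR]
  have h3 : R * ‖w‖ / R = ‖w‖ := by field_simp
  have h4 : R * ‖v - w‖ / (R + R * ‖w‖) = ‖v - w‖ / (1 + ‖w‖) := by
    rw [← mul_one_add, mul_div_mul_left _ _ hR.ne']
  have h5 : R ^ γ ≠ 0 := (Real.rpow_pos_of_pos hR γ).ne'
  rw [h1, h2, h3, h4, Real.mul_rpow hR.le (norm_nonneg _)]
  rw [mul_assoc (R ^ γ), mul_div_assoc (R ^ γ), ← mul_assoc, inv_mul_cancel₀ h5, one_mul]

/-- **LAMS** -/
theorem LAMS : S_LAMS := by
  intro d _ γ s R f t hR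
  unfold Lam LamR
  have h5 : R ^ γ ≠ 0 := (Real.rpow_pos_of_pos hR γ).ne'
  have key : ∀ q : E d × E d, ∫ w, scal γ R f t q.1 w * kk γ s q.2 w =
      R⁻¹ * ∫ w, f (t / R) q.1 w * kkR γ s R (R • q.2) w := by
    intro q
    have h1 : ∀ w : E d, scal γ R f t q.1 w * kk γ s q.2 w =
        (R ^ ((d : ℝ) + γ - 1) * (R ^ γ)⁻¹) *
          (fun w' : E d => f (t / R) q.1 w' * kkR γ s R (R • q.2) w') (R • w) := by
      intro w
      rw [kk_scal hR]
      unfold scal
      ring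
    have h2 := Measure.integral_comp_smul (volume : Measure (E d))
      (fun w' : E d => f (t / R) q.1 w' * kkR γ s R (R • q.2) w') R
    rw [finrank_euclideanSpace, Fintype.card_fin, smul_eq_mul, abs_of_pos (by positivity)] at h2
    rw [integral_congr_ae (Eventually.of_forall h1), integral_const_mul, h2, ← mul_assoc]
    congr 1
    have e1 : R ^ ((d : ℝ) + γ - 1) = R ^ d * R ^ γ * R⁻¹ := by
      rw [Real.rpow_sub hR, Real.rpow_add hR, Real.rpow_natCast, Real.rpow_one, div_eq_mul_inv]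
    rw [e1]
    have h6 : R ^ d ≠ 0 := by positivity
    field_simp
  simp_rw [key]
  rw [← Real.mul_iSup_of_nonneg (by positivity)]
  congr 1
  have hsur : Function.Surjective (fun q : E d × E d => ((q.1, R • q.2) : E d × E d)) := by
    rintro ⟨x, v⟩
    refine ⟨(x, R⁻¹ • v), ?_⟩
    simp only [Prod.mk.injEq, true_and]
    rw [smul_smul, mul_inv_cancel₀ hR.ne', one_smul]
  exact hsur.iSup_comp (g := fun q : E d × E d => ∫ w, f (t / R) q.1 w * kkR γ s R q.2 w)

end Pool.Agent.H43.BZ.Lams
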