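import Pool.Agent.H43.BZ.Core
import Pool.Agent.H339.BZ.SCAL
import Pool.Agent.H47.BZ.KKRLE
import Pool.Agent.H388.BZ.Sfin
import Pool.Agent.H662.BZ.SRATE
import Pool.Agent.H588.BZ.LAMRH
import Pool.Agent.H348.BZ.Ari
import Pool.Agent.H43.BZ.Lams
import Pool.Agent.H784.BZ.Supn
import Pool.Agent.H271.BZ.Mast

/-!
# The scaled pieces put together
-/

set_option autoImplicit false

open MeasureTheory Metric Set Filter Topology
open scoped RealInnerProductSpace ENNReal

namespace Pool.Agent.H43.BZ.All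

open Pool.Agent.H43.BZ

theorem sfin : S_SFIN := Pool.Agent.H43.BZ.SFIN finn Pool.Agent.H339.BZ.SCAL Pool.Agent.H43.BZ.Lams.LAMS

theorem srate : S_SRATE := Pool.Agent.H662.BZ.SRATE rate Pool.Agent.H339.BZ.SCAL

theorem kkrle : S_KKRLE := Pool.Agent.H47.BZ.KKRLE

theorem lamrh : S_LAMRH := Pool.Agent.H588.BZ.LAMRH

theorem ari : S_ARI := Pool.Agent.H43.BZ.ARI

theorem mast : S_MAST := Pool.Agent.H271.BZMast.MAST sfin srate kkrle kki Pool.Agent.H784.BZ.SUPn

end Pool.Agent.H43.BZ.All
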