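import Pool.Agent.H43.BZ.Stm4

/-!
# Implosion singularities: definitions and elementary facts
-/

set_option autoImplicit false

open MeasureTheory Metric Set Filter Topology
open scoped RealInnerProductSpace ENNReal

namespace Pool.Agent.H43.BZ

/-- the mass density `ρ(t,x) = ∫ f dv` -/
noncomputable def mass {d : ℕ} (f : ℝ → E d → E d → ℝ) (t : ℝ) (x : E d) : ℝ := ∫ v, f t x v

/-- the energy density `E(t,x) = ∫ f |v|² dv` -/
noncomputable def energy {d : ℕ} (f : ℝ → E d → E d → ℝ) (t : ℝ) (x : E d) : ℝ :=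
  ∫ v, f t x v * ‖v‖ ^ 2

/-- `x` has distance `≥ ε` from `x₀ + ℤ^d`, i.e. distance `≥ ε` from `x₀` on the torus -/
def Far {d : ℕ} (ε : ℝ) (x₀ x : E d) : Prop :=
  ∀ k : Fin d → ℤ, ε ≤ ‖x - x₀ - WithLp.toLp 2 (fun i => (k i : ℝ))‖

/-- an implosion singularity at the point `x₀` of the torus at time `T` -/
structure Implosion {d : ℕ} (T : ℝ) (f : ℝ → E d → E d → ℝ) (x₀ : E d) : Prop where
  mass_unbounded : ∀ B : ℝ, ∀ T' < T, ∃ t ∈ Ioo T' T, 0 ≤ t ∧ ∃ x, B < mass f t x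
  energy_unbounded : ∀ B : ℝ, ∀ T' < T, ∃ t ∈ Ioo T' T, 0 ≤ t ∧ ∃ x, B < energy f t x
  away : ∀ ε > 0, ∃ B : ℝ, ∀ t ∈ Ico 0 T, ∀ x, Far ε x₀ x → mass f t x ≤ B ∧ energy f t x ≤ B

end Pool.Agent.H43.BZ
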