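import Pool.Agent.H43.BZ.All
import Pool.Agent.H43.BZ.Imp
import Pool.Agent.H43.BZ.Lams
import Pool.Agent.H339.BZ.LSCAL
import Pool.Agent.H47.BZ.KKRLE
import Pool.Agent.H784.BZ.Supn
import Pool.Agent.H44.BZ.LHES
import Pool.Agent.H872.BZ.LP
import Pool.Agent.H370.BZ.LKEY
import Pool.Agent.H328.BZ.LQLE
import Pool.Agent.H190.BZ.LFIN
import Pool.Agent.H23.BZ.LRate
import Pool.Agent.H227.BZ.KKI1
import Pool.Agent.H51.BZ.LSFIN
import Pool.Agent.H585.BZ.LSRATE
import Pool.Agent.H350.BZ.LMAST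

/-!
# The Landau pieces put together
-/

set_option autoImplicit false

open MeasureTheory Metric Set Filter Topology
open scoped RealInnerProductSpace ENNReal

namespace Pool.Agent.H43.BZ.All

open Pool.Agent.H43.BZ
open Pool.Agent.H350.BZ

theorem lqle (h : S_LND) : S_LQLE :=
  Pool.Agent.H328.BZ.LQLE h Pool.Agent.H44.BZ.LHES Pool.Agent.H872.BZ.LP
    Pool.Agent.H370.BZ.LKEY Pool.Agent.H227.BZ.KKI1

theorem lfin (h : S_LND) : S_LFIN :=
  Pool.Agent.H190.BZ.LFIN Pool.Agent.H215.BZ.CON (lqle h) Pool.Agent.H784.BZ.SUPn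
    Pool.Agent.H227.BZ.KKI1

theorem lrate (h : S_LND) : S_LRATE :=
  Pool.Agent.H23.BZ.LRATE (lfin h) Pool.Agent.H227.BZ.KKI1 Pool.Agent.H43.BZ.ODE

theorem lsfin (h : S_LND) : S_LSFIN :=
  Pool.Agent.H51.BZ.LSFIN (lfin h) Pool.Agent.H339.BZ.LSCAL Pool.Agent.H43.BZ.Lams.LAMS

theorem lsrate (h : S_LND) : S_LSRATE :=
  Pool.Agent.H585.BZ.LSRATE (lrate h) Pool.Agent.H339.BZ.LSCAL

theorem lmast (h : S_LND) : S_LMAST :=
  Pool.Agent.H350.BZ4.LMAST (lsfin h) (lsrate h) Pool.Agent.H47.BZ.KKRLE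
    Pool.Agent.H227.BZ.KKI1 Pool.Agent.H784.BZ.SUPn

/-- bounds for mass, energy and entropy from `f ≤ B P` (helper909's HYDn without the equation) -/
theorem hydL {d : ℕ} {T : ℝ} {f : ℝ → E d → E d → ℝ}
    (hnn : ∀ t ∈ Ico 0 T, ∀ x v, 0 ≤ f t x v) {B : ℝ}
    (hB0 : ∀ t ∈ Ico 0 T, ∀ x v, f t x v ≤ B * P d v) :
    ∃ B' : ℝ, ∀ t ∈ Ico 0 T, ∀ x, ∫ v, f t x v ≤ B' ∧ ∫ v, f t x v * ‖v‖ ^ 2 ≤ B' ∧
      ∫ v, f t x v * Real.log (f t x v) ≤ B' := by
  set N' : ℝ := max B 0 with hN'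
  have hN'n : 0 ≤ N' := le_max_right _ _
  have hbd' : ∀ t ∈ Ico 0 T, ∀ x v, f t x v ≤ N' * P d v := by
    intro t ht x v
    refine le_trans (hB0 t ht x v) ?_
    exact mul_le_mul_of_nonneg_right (le_max_left _ _) (P_nonneg d v)
  have hJ : 0 ≤ ∫ v, G d v := integral_nonneg fun v => G_nonneg d v
  refine ⟨N' * (∫ v, G d v) + (N' * |Real.log N'|) * ∫ v, G d v, ?_⟩
  intro t ht x
  have hA : 0 ≤ N' * ∫ v, G d v := mul_nonneg hN'n hJ
  have hB : 0 ≤ (N' * |Real.log N'|) * ∫ v, G d v :=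
    mul_nonneg (mul_nonneg hN'n (abs_nonneg _)) hJ
  have hfn : ∀ v, 0 ≤ f t x v := fun v => hnn t ht x v
  have hfG : ∀ v, f t x v ≤ N' * G d v := fun v =>
    le_trans (hbd' t ht x v) (mul_le_mul_of_nonneg_left (P_le_G d v) hN'n)
  refine ⟨?_, ?_, ?_⟩
  · have h1 : ∫ v, f t x v ≤ ∫ v, N' * G d v :=
      integral_mono_of_nonneg (Filter.Eventually.of_forall hfn) ((G_int d).const_mul N')
        (Filter.Eventually.of_forall hfG)
    rw [integral_const_mul] at h1
    linarith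
  · have h1 : ∫ v, f t x v * ‖v‖ ^ 2 ≤ ∫ v, N' * G d v := by
      refine integral_mono_of_nonneg (Filter.Eventually.of_forall fun v => ?_)
        ((G_int d).const_mul N') (Filter.Eventually.of_forall fun v => ?_)
      · exact mul_nonneg (hfn v) (sq_nonneg _)
      · calc f t x v * ‖v‖ ^ 2 ≤ (N' * P d v) * ‖v‖ ^ 2 :=
              mul_le_mul_of_nonneg_right (hbd' t ht x v) (sq_nonneg _)
          _ = N' * (P d v * ‖v‖ ^ 2) := by ring
          _ ≤ N' * G d v := mul_le_mul_of_nonneg_left (sq_P_le_G d v) hN'n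
    rw [integral_const_mul] at h1
    linarith
  · have hpt : ∀ v, f t x v * Real.log (f t x v) ≤ (N' * |Real.log N'|) * G d v := by
      intro v
      rcases (hfn v).eq_or_lt with h0 | h0
      · rw [← h0, zero_mul]
        exact mul_nonneg (mul_nonneg hN'n (abs_nonneg _)) (G_nonneg d v)
      · have hle : f t x v ≤ N' := by
          refine le_trans (hbd' t ht x v) ?_
          calc N' * P d v ≤ N' * 1 := mul_le_mul_of_nonneg_left (P_le_one d v) hN'n
            _ = N' := mul_one _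
        have hlog : Real.log (f t x v) ≤ |Real.log N'| :=
          le_trans (Real.log_le_log h0 hle) (le_abs_self _)
        calc f t x v * Real.log (f t x v) ≤ f t x v * |Real.log N'| :=
              mul_le_mul_of_nonneg_left hlog h0.le
          _ ≤ (N' * G d v) * |Real.log N'| :=
              mul_le_mul_of_nonneg_right (hfG v) (abs_nonneg _)
          _ = (N' * |Real.log N'|) * G d v := by ring
    have h1 : ∫ v, f t x v * Real.log (f t x v) ≤ (N' * |Real.log N'|) * ∫ v, G d v := by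
      by_cases hi : Integrable (fun v => f t x v * Real.log (f t x v))
      · have h2 : ∫ v, f t x v * Real.log (f t x v) ≤ ∫ v, (N' * |Real.log N'|) * G d v :=
          integral_mono hi ((G_int d).const_mul _) hpt
        rw [integral_const_mul] at h2
        exact h2
      · rw [integral_undef hi]
        exact hB
    linarith

end Pool.Agent.H43.BZ.All
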