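import Pool.Agent.H43.BZ.All
import Pool.Agent.H43.BZ.Imp
import Pool.Agent.H643.BZ.Sup

/-!
# From the criterion at moving velocity scales to the exclusion of slow implosions
-/

set_option autoImplicit false

open MeasureTheory Metric Set Filter Topology
open scoped RealInnerProductSpace ENNReal

namespace Pool.Agent.H43.BZ

/-- integrability of the second moment -/
theorem int_sq {d : ℕ} {γ : ℝ} {b : ℝ → ℝ} {T : ℝ} {f : ℝ → E d → E d → ℝ} (hT : 0 < T)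
    (hsol : Sol d γ b T f) {t : ℝ} (ht : t ∈ Ico 0 T) (x : E d) :
    Integrable (fun v => f t x v * (1 + ‖v‖) ^ (2 : ℕ)) := by
  have h := (Pool.Agent.H643.BZ.SUP d T 2 f hT (by norm_num) hsol.nonneg hsol.cont hsol.periodic
    hsol.decay).2.2 t ht x
  refine h.congr (Eventually.of_forall fun v => ?_)
  show f t x v * (1 + ‖v‖) ^ (2 : ℝ) = f t x v * (1 + ‖v‖) ^ (2 : ℕ)
  rw [← Real.rpow_natCast]
  norm_num

theorem int_pow {T p : ℝ} (hT : 0 < T) (hp : -1 < p) :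
    IntegrableOn (fun t => (T - t) ^ p) (Ico 0 T) := by
  have h1 : IntervalIntegrable (fun x : ℝ => x ^ p) volume 0 T :=
    intervalIntegral.intervalIntegrable_rpow' hp
  have h2 := h1.comp_sub_left T
  simp only [sub_zero, sub_self] at h2
  have h3 := h2.symm
  rw [intervalIntegrable_iff_integrableOn_Ico_of_le hT.le] at h3
  exact h3

/-- the majorant of the collision moment at the moving scale is integrable -/
theorem pow_int {γ T A a e x : ℝ} (hT : 0 < T) (h1 : a + γ * x < 1)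
    (h2 : e < 1 + (2 - γ) * x) :
    IntegrableOn (fun t => 2 * ((T - t) ^ (-x)) ^ γ *
        (A * (T - t) ^ (-a) + A * (T - t) ^ (-e) / ((T - t) ^ (-x)) ^ 2)) (Ico 0 T) := by
  have hi := ((int_pow (T := T) (p := -(a + γ * x)) hT (by linarith)).const_mul (2 * A)).add
    ((int_pow (T := T) (p := -(e + γ * x - 2 * x)) hT (by linarith)).const_mul (2 * A))
  refine IntegrableOn.congr_fun hi (fun t ht => ?_) measurableSet_Ico
  have hTt : 0 < T - t := by linarith [ht.2]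
  show 2 * A * (T - t) ^ (-(a + γ * x)) + 2 * A * (T - t) ^ (-(e + γ * x - 2 * x)) =
    2 * ((T - t) ^ (-x)) ^ γ *
        (A * (T - t) ^ (-a) + A * (T - t) ^ (-e) / ((T - t) ^ (-x)) ^ 2)
  have e1 : ((T - t) ^ (-x)) ^ γ = (T - t) ^ (-(x * γ)) := by
    rw [← Real.rpow_mul hTt.le]
    ring_nf
  have e2 : (((T - t) ^ (-x)) ^ 2)⁻¹ = (T - t) ^ (2 * x) := by
    rw [← Real.rpow_natCast, ← Real.rpow_mul hTt.le, ← Real.rpow_neg hTt.le]
    congr 1
    push_cast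
    ring
  have e3 : (T - t) ^ (-(a + γ * x)) = (T - t) ^ (-(x * γ)) * (T - t) ^ (-a) := by
    rw [← Real.rpow_add hTt]
    congr 1
    ring
  have e4 : (T - t) ^ (-(e + γ * x - 2 * x)) =
      (T - t) ^ (-(x * γ)) * ((T - t) ^ (-e) * (T - t) ^ (2 * x)) := by
    rw [← Real.rpow_add hTt, ← Real.rpow_add hTt]
    congr 1
    ring
  rw [e1, div_eq_mul_inv, e2, e3, e4]
  ring

/-- slow growth of mass and energy excludes blow-up -/
theorem core (hM : S_MAST) (hL : S_LAMRH) (hH : S_HYDn) {d : ℕ} (hd : 2 ≤ d)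
    {s γ K : ℝ} (hs : 0 < s) (hs1 : s < 1) (hγ : 0 ≤ γ) (hγs : γ + 2 * s ≤ 2) (hK : 0 ≤ K)
    {b : ℝ → ℝ} (hb : Ker d s K b) {T : ℝ} {f : ℝ → E d → E d → ℝ} (hT : 0 < T)
    (hsol : Sol d γ b T f) {A a e x : ℝ} (hx0 : 0 ≤ x) (hx1 : ((d : ℝ) + γ) * x < 1)
    (ha : a < 1 - γ * x) (he : e < 1 + (2 - γ) * x)
    (hbd : ∀ t ∈ Ico 0 T, ∀ y,
      mass f t y ≤ A * (T - t) ^ (-a) ∧ energy f t y ≤ A * (T - t) ^ (-e)) :
    ∃ B : ℝ, ∀ t ∈ Ico 0 T, ∀ y, (∀ v, f t y v ≤ B * P d v) ∧ mass f t y ≤ B ∧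
      energy f t y ≤ B ∧ ∫ v, f t y v * Real.log (f t y v) ≤ B := by
  have hdpos : (0 : ℝ) < d := by
    have : (2 : ℝ) ≤ d := by exact_mod_cast hd
    linarith
  obtain ⟨B, hB⟩ := hM d hd s γ K hs hs1 (by linarith) hγs hK b hb T f hT hsol x hx0 hx1 _
    (pow_int (A := A) (a := a) (e := e) hT (by linarith) he)
    (by
      intro t ht
      have hTt : 0 < T - t := by linarith [ht.2]
      exact hL d hd s γ ((T - t) ^ (-x)) hs hs1 hγ hγs (Real.rpow_pos_of_pos hTt _) f t _ _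
        (hsol.nonneg t ht) (fun y => Pool.Agent.H860.BZRate.meas hsol ht y)
        (fun y => int_sq hT hsol ht y)
        (fun y => (hbd t ht y).1) (fun y => (hbd t ht y).2))
  obtain ⟨B', hB'⟩ := hH d hd γ b T f hT hsol B hB
  refine ⟨max B B', fun t ht y => ⟨fun v => ?_, ?_⟩⟩
  · refine (hB t ht y v).trans ?_
    exact mul_le_mul_of_nonneg_right (le_max_left _ _) (by unfold P; positivity)
  · obtain ⟨h1, h2, h3⟩ := hB' t ht y
    exact ⟨h1.trans (le_max_right _ _), h2.trans (le_max_right _ _), h3.trans (le_max_right _ _)⟩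

/-- the time shift of an implosion -/
theorem Implosion.shift {d : ℕ} {T : ℝ} {f : ℝ → E d → E d → ℝ} {x₀ : E d}
    (h : Implosion T f x₀) {t₀ : ℝ} (ht₀ : t₀ ∈ Ico 0 T) :
    Implosion (T - t₀) (fun t => f (t₀ + t)) x₀ := by
  refine ⟨fun B T' hT' => ?_, fun B T' hT' => ?_, fun ε hε => ?_⟩
  · obtain ⟨t, ht, h0, x, hx⟩ := h.mass_unbounded B (max (t₀ + T') t₀)
      (max_lt (by linarith) ht₀.2)
    have h1 := (max_lt_iff.1 ht.1).1
    have h2 := (max_lt_iff.1 ht.1).2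
    refine ⟨t - t₀, ⟨by linarith, by linarith [ht.2]⟩, by linarith, x, ?_⟩
    have : mass (fun t => f (t₀ + t)) (t - t₀) x = mass f t x := by
      unfold mass
      simp only [add_sub_cancel]
    rw [this]
    exact hx
  · obtain ⟨t, ht, h0, x, hx⟩ := h.energy_unbounded B (max (t₀ + T') t₀)
      (max_lt (by linarith) ht₀.2)
    have h1 := (max_lt_iff.1 ht.1).1
    have h2 := (max_lt_iff.1 ht.1).2
    refine ⟨t - t₀, ⟨by linarith, by linarith [ht.2]⟩, by linarith, x, ?_⟩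
    have : energy (fun t => f (t₀ + t)) (t - t₀) x = energy f t x := by
      unfold energy
      simp only [add_sub_cancel]
    rw [this]
    exact hx
  · obtain ⟨B, hB⟩ := h.away ε hε
    exact ⟨B, fun t ht x hx => hB (t₀ + t) ⟨by linarith [ht.1, ht₀.1], by linarith [ht.2]⟩ x hx⟩

/-- an implosion at `x₀` needs fast growth near `x₀`, at some time of `[0,T)` -/
theorem core2 (hM : S_MAST) (hL : S_LAMRH) (hH : S_HYDn) {d : ℕ} (hd : 2 ≤ d)
    {s γ K : ℝ} (hs : 0 < s) (hs1 : s < 1) (hγ : 0 ≤ γ) (hγs : γ + 2 * s ≤ 2) (hK : 0 ≤ K)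
    {b : ℝ → ℝ} (hb : Ker d s K b) {T : ℝ} {f : ℝ → E d → E d → ℝ} (hT : 0 < T)
    (hsol : Sol d γ b T f) {x₀ : E d} (hI : Implosion T f x₀) {ε : ℝ} (hε : 0 < ε)
    {A a e x : ℝ} (hx0 : 0 ≤ x) (hx1 : ((d : ℝ) + γ) * x < 1) (ha0 : 0 ≤ a) (he0 : 0 ≤ e)
    (ha : a < 1 - γ * x) (he : e < 1 + (2 - γ) * x) :
    ∃ t ∈ Ico 0 T, ∃ y, ¬ Far ε x₀ y ∧
      (A * (T - t) ^ (-a) < mass f t y ∨ A * (T - t) ^ (-e) < energy f t y) := by
  by_contra hcon
  push Not at hcon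
  obtain ⟨B, hB⟩ := hI.away ε hε
  have key : ∀ q : ℝ, 0 ≤ q → ∀ t ∈ Ico 0 T, T ^ (-q) ≤ (T - t) ^ (-q) := by
    intro q hq t ht
    have hTt : 0 < T - t := by linarith [ht.2]
    exact Real.rpow_le_rpow_of_nonpos hTt (by linarith [ht.1]) (by linarith)
  have key2 : ∀ q : ℝ, 0 ≤ q → ∀ t ∈ Ico 0 T, B ≤ (|B| * T ^ q) * (T - t) ^ (-q) := by
    intro q hq t ht
    have h1 : (|B| * T ^ q) * T ^ (-q) ≤ (|B| * T ^ q) * (T - t) ^ (-q) :=
      mul_le_mul_of_nonneg_left (key q hq t ht) (by positivity)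
    have h2 : (|B| * T ^ q) * T ^ (-q) = |B| := by
      rw [mul_assoc, ← Real.rpow_add hT]
      simp
    rw [h2] at h1
    exact (le_abs_self B).trans h1
  set A' : ℝ := max A (max (|B| * T ^ a) (|B| * T ^ e)) with hA'
  have hfin : ∀ t ∈ Ico 0 T, ∀ y,
      mass f t y ≤ A' * (T - t) ^ (-a) ∧ energy f t y ≤ A' * (T - t) ^ (-e) := by
    intro t ht y
    have hTt : 0 < T - t := by linarith [ht.2]
    have hpa : 0 ≤ (T - t) ^ (-a) := (Real.rpow_pos_of_pos hTt _).le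
    have hpe : 0 ≤ (T - t) ^ (-e) := (Real.rpow_pos_of_pos hTt _).le
    by_cases hf : Far ε x₀ y
    · obtain ⟨h1, h2⟩ := hB t ht y hf
      refine ⟨(h1.trans (key2 a ha0 t ht)).trans ?_, (h2.trans (key2 e he0 t ht)).trans ?_⟩
      · exact mul_le_mul_of_nonneg_right
          ((le_max_left _ _).trans (le_max_right _ _)) hpa
      · exact mul_le_mul_of_nonneg_right
          ((le_max_right _ _).trans (le_max_right _ _)) hpe
    · obtain ⟨h1, h2⟩ := hcon t ht y hf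
      exact ⟨h1.trans (mul_le_mul_of_nonneg_right (le_max_left _ _) hpa),
        h2.trans (mul_le_mul_of_nonneg_right (le_max_left _ _) hpe)⟩
  obtain ⟨B', hB'⟩ := core hM hL hH hd hs hs1 hγ hγs hK hb hT hsol hx0 hx1 ha he hfin
  obtain ⟨t, ht, h0, y, hy⟩ := hI.mass_unbounded B' 0 hT
  have := (hB' t ⟨h0, ht.2⟩ y).2.1
  linarith

/-- the same at times arbitrarily close to `T` -/
theorem core3 (hM : S_MAST) (hL : S_LAMRH) (hH : S_HYDn) {d : ℕ} (hd : 2 ≤ d)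
    {s γ K : ℝ} (hs : 0 < s) (hs1 : s < 1) (hγ : 0 ≤ γ) (hγs : γ + 2 * s ≤ 2) (hK : 0 ≤ K)
    {b : ℝ → ℝ} (hb : Ker d s K b) {T : ℝ} {f : ℝ → E d → E d → ℝ}
    (hsol : Sol d γ b T f) {x₀ : E d} (hI : Implosion T f x₀) {ε : ℝ} (hε : 0 < ε)
    {A a e x : ℝ} (hx0 : 0 ≤ x) (hx1 : ((d : ℝ) + γ) * x < 1) (ha0 : 0 ≤ a) (he0 : 0 ≤ e)
    (ha : a < 1 - γ * x) (he : e < 1 + (2 - γ) * x) {T' : ℝ} (hT' : T' ∈ Ico 0 T) :
    ∃ t ∈ Ico T' T, ∃ y, ¬ Far ε x₀ y ∧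
      (A * (T - t) ^ (-a) < mass f t y ∨ A * (T - t) ^ (-e) < energy f t y) := by
  obtain ⟨t, ht, y, hy, h⟩ := core2 hM hL hH hd hs hs1 hγ hγs hK hb
    (by linarith [hT'.2] : 0 < T - T') (Pool.Agent.H860.BZRate.shift hsol hT') (hI.shift hT') hε
    (A := A) hx0 hx1 ha0 he0 ha he
  refine ⟨T' + t, ⟨by linarith [ht.1], by linarith [ht.2]⟩, y, hy, ?_⟩
  have h1 : T - (T' + t) = T - T' - t := by ring
  rw [h1]
  exact h

end Pool.Agent.H43.BZ
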