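import Pool.Agent.H43.BZ.Stm4

/-!
# Interface, fifth part: soft potentials, bounded solutions

For `γ < 0` the collision moment is bounded by mass, a moment of order `p` and the supremum of `f`.
-/

set_option autoImplicit false

open MeasureTheory Metric Set Filter Topology
open scoped RealInnerProductSpace ENNReal

namespace Pool.Agent.H43.BZ

/-- **SOFT1**: `M = A₁ + A₂/R^p`, `V = R + ‖v‖`, `θ = 1 + γ/d ∈ (0,1)`.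
`kkR γ s R v w ≤ ‖v-w‖^γ (1+‖w‖/R)^(2s)`.
Near region `‖v-w‖ < V/4`: `3V/4 ≤ R+‖w‖ ≤ 5V/4`, so `(1+‖w‖/R)^(2s) ≤ 2 (V/R)^(2s)` and
`∫_near g ≤ (4R/(3V))^p ∫ g (1+‖w‖/R)^p ≤ C (R/V)^p M` (`(1+y)^p ≤ 2^p (1+y^p)`).  For `δ > 0`:
`∫_{‖v-w‖<δ} g ‖v-w‖^γ ≤ A₀ c δ^(d+γ)`, `c = ∫_{‖z‖<1} ‖z‖^γ` (translate, scale; see the proof of
KKI, Pool.Agent.H280.BZ.KKI), and `∫_{near, ‖v-w‖≥δ} g ‖v-w‖^γ ≤ δ^γ C (R/V)^p M`.  With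
`δ^d = (R/V)^p M / A₀` both are `≤ C A₀^(-γ/d) ((R/V)^p M)^θ`; times `2 (V/R)^(2s)` this is
`≤ C A₀^(-γ/d) M^θ (V/R)^(2s - pθ)` and `2s - pθ ≤ 0`, `V/R ≥ 1`.
Far region `‖v-w‖ ≥ V/4`: `‖v-w‖^γ ≤ (R/4)^γ`, and
`∫ g (1+‖w‖/R)^(2s) ≤ ∫ g (1+‖w‖/R)^p ≤ 2^p M` (`2s ≤ 2 ≤ p`). -/
def S_SOFT1 : Prop := ∀ d : ℕ, 2 ≤ d → ∀ s γ p : ℝ, 0 < s → s ≤ 1 → -(d : ℝ) < γ → γ < 0 → 2 ≤ p →
    2 * s * d ≤ p * (d + γ) → ∃ C : ℝ, 0 ≤ C ∧ ∀ R : ℝ, 0 < R → ∀ g : E d → ℝ, Measurable g →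
    (∀ w, 0 ≤ g w) → Integrable (fun w => g w * (1 + ‖w‖) ^ p) →
    ∀ A₀ A₁ A₂ : ℝ, 0 < A₀ → 0 < A₁ → 0 ≤ A₂ → (∀ w, g w ≤ A₀) →
    ∫ w, g w ≤ A₁ → ∫ w, g w * ‖w‖ ^ p ≤ A₂ →
    ∀ v : E d, ∫ w, g w * kkR γ s R v w ≤
      C * (A₀ ^ (-γ / d) * (A₁ + A₂ / R ^ p) ^ (1 + γ / d) + R ^ γ * (A₁ + A₂ / R ^ p))

/-- **SOFT3** (calculus): the choice of the moving scale `R = (T-t)^(-x)`, `x < 1/(d+γ)` close to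
`1/(d+γ)`, and an integrable majorant (`θ = 1+γ/d`, `(p+q)^θ ≤ p^θ + q^θ`:
`Real.rpow_add_le_add_rpow`):
`m = C (A₀^(-γ/d) A^θ ((T-t)^(-aθ) + (T-t)^(-(e-px)θ)) + A ((T-t)^(-a-γx) + (T-t)^(-(e-px+γx))))`;
all exponents are `> -1` for `x` close to `1/(d+γ)`.  (`pow_int`, `int_pow` in
Pool.Agent.H43.BZ.Core are similar.) -/
def S_SOFT3 : Prop := ∀ (d : ℕ) (γ T A₀ A C a e p : ℝ), 2 ≤ d → -(d : ℝ) < γ → γ < 0 → 0 < T →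
    0 < A₀ → 0 < A → 0 ≤ C → 2 ≤ p → a < d / (d + γ) → e < (d + p) / (d + γ) →
    ∃ (x : ℝ) (m : ℝ → ℝ), 0 ≤ x ∧ ((d : ℝ) + γ) * x < 1 ∧ IntegrableOn m (Ico 0 T) ∧
      ∀ t ∈ Ico 0 T,
        C * (A₀ ^ (-γ / d) * (A * (T - t) ^ (-a) +
            A * (T - t) ^ (-e) / ((T - t) ^ (-x)) ^ p) ^ (1 + γ / d) +
          ((T - t) ^ (-x)) ^ γ * (A * (T - t) ^ (-a) +
            A * (T - t) ^ (-e) / ((T - t) ^ (-x)) ^ p)) ≤ m t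

end Pool.Agent.H43.BZ
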