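import Pool.Agent.H43.BZ.Core
import Pool.Agent.H43.BZ.Stm5

/-!
# Soft potentials: exclusion of slow blow-up for bounded solutions
-/

set_option autoImplicit false

open MeasureTheory Metric Set Filter Topology
open scoped RealInnerProductSpace ENNReal

namespace Pool.Agent.H43.BZ

/-- the velocity moment of order `p` -/
noncomputable def mom {d : ℕ} (p : ℝ) (f : ℝ → E d → E d → ℝ) (t : ℝ) (x : E d) : ℝ :=
  ∫ v, f t x v * ‖v‖ ^ p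

theorem softcore (h1 : S_SOFT1) (h3 : S_SOFT3) {d : ℕ} (hd : 2 ≤ d) {s γ p : ℝ} (hs : 0 < s)
    (hs1 : s ≤ 1) (hγ : -(d : ℝ) < γ) (hγ0 : γ < 0) (hp : 2 ≤ p) (hsp : 2 * s * d ≤ p * (d + γ))
    {T : ℝ} (hT : 0 < T) {f : ℝ → E d → E d → ℝ}
    (hnn : ∀ t ∈ Ico 0 T, ∀ x v, 0 ≤ f t x v)
    (hmeas : ∀ t ∈ Ico 0 T, ∀ x, Measurable (f t x))
    (hint : ∀ t ∈ Ico 0 T, ∀ x, Integrable (fun v => f t x v * (1 + ‖v‖) ^ p))
    (hM : ∀ x : ℝ, 0 ≤ x → ((d : ℝ) + γ) * x < 1 → ∀ m : ℝ → ℝ, IntegrableOn m (Ico 0 T) →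
      (∀ t ∈ Ico 0 T, LamR γ s ((T - t) ^ (-x)) f t ≤ m t) →
      ∃ B : ℝ, ∀ t ∈ Ico 0 T, ∀ x v, f t x v ≤ B * P d v)
    {A a e : ℝ} (ha : a < d / (d + γ)) (he : e < (d + p) / (d + γ))
    (hbdd : ∀ t ∈ Ico 0 T, ∀ x v, f t x v ≤ A)
    (hbd : ∀ t ∈ Ico 0 T, ∀ y,
      mass f t y ≤ A * (T - t) ^ (-a) ∧ mom p f t y ≤ A * (T - t) ^ (-e)) :
    ∃ B : ℝ, ∀ t ∈ Ico 0 T, ∀ x v, f t x v ≤ B * P d v := by
  obtain ⟨C, hC, hsoft⟩ := h1 d hd s γ p hs hs1 hγ hγ0 hp hsp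
  set A' : ℝ := max A 1 with hA'
  have hA'0 : 0 < A' := lt_of_lt_of_le one_pos (le_max_right _ _)
  have hAA' : A ≤ A' := le_max_left _ _
  obtain ⟨x, m, hx0, hx1, hm, hle⟩ := h3 d γ T A' A' C a e p hd hγ hγ0 hT hA'0 hA'0 hC hp ha he
  refine hM x hx0 hx1 m hm fun t ht => ?_
  refine le_trans ?_ (hle t ht)
  have hTt : 0 < T - t := by linarith [ht.2]
  have hpa : 0 < (T - t) ^ (-a) := Real.rpow_pos_of_pos hTt _
  have hpe : 0 < (T - t) ^ (-e) := Real.rpow_pos_of_pos hTt _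
  unfold LamR
  refine ciSup_le fun q => ?_
  refine hsoft ((T - t) ^ (-x)) (Real.rpow_pos_of_pos hTt _) (f t q.1) (hmeas t ht q.1)
    (hnn t ht q.1) (hint t ht q.1) A' (A' * (T - t) ^ (-a)) (A' * (T - t) ^ (-e)) hA'0
    (mul_pos hA'0 hpa) (mul_pos hA'0 hpe).le (fun w => (hbdd t ht q.1 w).trans hAA') ?_ ?_ q.2
  · exact (hbd t ht q.1).1.trans (mul_le_mul_of_nonneg_right hAA' hpa.le)
  · exact (hbd t ht q.1).2.trans (mul_le_mul_of_nonneg_right hAA' hpe.le)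

theorem mom_two {d : ℕ} (f : ℝ → E d → E d → ℝ) (t : ℝ) (x : E d) :
    mom 2 f t x = energy f t x := by
  unfold mom energy
  refine integral_congr_ae (Eventually.of_forall fun v => ?_)
  show f t x v * ‖v‖ ^ (2 : ℝ) = f t x v * ‖v‖ ^ 2
  rw [← Real.rpow_natCast]
  norm_num

/-- the isentropic Euler exponents are subcritical in dimensions `2, 3, 4` for `γ < 0` -/
theorem euler {d : ℕ} (hd : 2 ≤ d) (hd4 : d ≤ 4) {γ r : ℝ} (hγ : γ < 0)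
    (hr : 1 < r) (hr2 : r ≤ 2 * d / (d + √d)) : 0 ≤ 1 - 1 / r ∧ ((d : ℝ) + γ) * (1 - 1 / r) < 1 := by
  have hd2 : (2 : ℝ) ≤ d := by exact_mod_cast hd
  have hd4' : (d : ℝ) ≤ 4 := by exact_mod_cast hd4
  have hs0 : 0 ≤ √(d : ℝ) := Real.sqrt_nonneg _
  have hsq : √(d : ℝ) ^ 2 = d := Real.sq_sqrt (by linarith)
  have h0 : 0 ≤ 1 - 1 / r := by
    have : 1 / r ≤ 1 := by
      rw [div_le_one (by linarith)]
      exact hr.le
    linarith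
  refine ⟨h0, ?_⟩
  have hpos : 0 < (d : ℝ) + √d := by linarith
  have h1 : r * ((d : ℝ) + √d) ≤ 2 * d := (le_div_iff₀ hpos).1 hr2
  have h2 : (d : ℝ) * (1 - 1 / r) ≤ 1 := by
    -- `d - √d ≤ 2`
    have h3 : (d : ℝ) - √d ≤ 2 := by nlinarith [hsq, hs0]
    have h4 : (1 - 1 / r) * r = r - 1 := by field_simp
    have h5 : (d : ℝ) * (r - 1) ≤ r := by nlinarith
    have h6 : (d : ℝ) * (1 - 1 / r) * r ≤ 1 * r := by
      rw [mul_assoc, h4]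
      linarith
    exact le_of_mul_le_mul_right h6 (by linarith)
  rcases h0.eq_or_lt with h3 | h3
  · rw [← h3]
    norm_num
  · nlinarith

end Pool.Agent.H43.BZ
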