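import Mathlib

/-!
# The non-cutoff Boltzmann collision operator: definitions
-/

set_option autoImplicit false

open MeasureTheory Metric Set
open scoped RealInnerProductSpace ENNReal

namespace Pool.Agent.H43.BZ

abbrev E (d : ℕ) := EuclideanSpace ℝ (Fin d)

abbrev S (d : ℕ) := sphere (0 : E d) 1

/-- the surface measure of the unit sphere -/
noncomputable def surf (d : ℕ) : Measure (S d) := (volume : Measure (E d)).toSphere

/-- `v' = (v + w)/2 + |v - w| σ / 2` -/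
noncomputable def post {d : ℕ} (v w σ : E d) : E d :=
  (1 / 2 : ℝ) • (v + w) + (‖v - w‖ / 2) • σ

/-- the collision difference `f(v'_*) f(v') - f(v_*) f(v)`, with `w = v_*` -/
noncomputable def F {d : ℕ} (f : E d → ℝ) (v w σ : E d) : ℝ :=
  f (post v w (-σ)) * f (post v w σ) - f w * f v

/-- the mirror image of `σ` in the line spanned by `z` -/
noncomputable def mir {d : ℕ} (z σ : E d) : E d := (2 * ⟪z, σ⟫ / ‖z‖ ^ 2) • z - σ

/-- `cos θ` -/
noncomputable def cosa {d : ℕ} (z σ : E d) : ℝ := ⟪z, σ⟫ / ‖z‖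

/-- the integrand of the collision operator; the average over `σ` and its mirror image in the
axis `v - v_*` (same deviation angle) makes the integral absolutely convergent -/
noncomputable def J {d : ℕ} (γ : ℝ) (b : ℝ → ℝ) (f : E d → ℝ) (v : E d) (p : E d × S d) : ℝ :=
  (F f v p.1 p.2 + F f v p.1 (mir (v - p.1) p.2)) / 2 *
    (‖v - p.1‖ ^ γ * b (cosa (v - p.1) p.2))

/-- the collision operator `Q(f,f)(v)` with kernel `|v - v_*|^γ b(cos θ)` -/
noncomputable def Q {d : ℕ} (γ : ℝ) (b : ℝ → ℝ) (f : E d → ℝ) (v : E d) : ℝ :=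
  ∫ p, J γ b f v p ∂(volume.prod (surf d))

/-- the upper bound of the angular kernel: `0 ≤ b(cos θ) ≤ K sin(θ/2)^(-(d-1)-2s)` -/
structure Ker (d : ℕ) (s K : ℝ) (b : ℝ → ℝ) : Prop where
  meas : Measurable b
  nonneg : ∀ x, 0 ≤ b x
  le : ∀ x ∈ Ico (-1 : ℝ) 1, b x ≤ K * ((1 - x) / 2) ^ (-(((d : ℝ) - 1) / 2 + s))

/-- the weight `(1 + |y|²)^(-4(d+3))` -/
noncomputable def P {V : Type} [NormedAddCommGroup V] (d : ℕ) (y : V) : ℝ :=
  ((1 + ‖y‖ ^ 2) ^ (4 * (d + 3)))⁻¹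

/-- cut-off: `1` if `1 + |v|² ≤ 4 (1 + |y|²)` -/
noncomputable def chi {V : Type} [NormedAddCommGroup V] (v y : V) : ℝ :=
  if 1 + ‖v‖ ^ 2 ≤ 4 * (1 + ‖y‖ ^ 2) then 1 else 0

/-- the region of slow collision partners -/
def Slow {V : Type} [NormedAddCommGroup V] (v w : V) : Prop :=
  1 ≤ ‖v‖ ∧ 256 * ‖w‖ ^ 2 ≤ 1 + ‖v‖ ^ 2

/-- the error term -/
noncomputable def er (t L r : ℝ) : ℝ := min 1 (t ^ 2 * L ^ 2) / (1 + (r / L) ^ 2)

end Pool.Agent.H43.BZ
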