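import Pool.Agent.H43.BZ.Stm

set_option autoImplicit false

open MeasureTheory Metric Set
open scoped RealInnerProductSpace ENNReal

namespace Pool.Agent.H43.BZ

theorem GAIN (h1 : S_G1) (h2 : S_G2) (h3 : S_G3) (h4 : S_G4) : S_GAIN := by
  intro d hd
  obtain ⟨C, hC, H3⟩ := h3 d hd
  refine ⟨2 * C, by positivity, ?_⟩
  intro γ hγ hγ2 b hb hb0 f hf hf0 N hN v
  rw [h1 d hd γ b hb hb0 f hf hf0 v, h2 d hd γ hγ b hb hb0 f hf hf0 v,
    ← lintegral_const_mul' _ _ ENNReal.ofReal_ne_top]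
  have : Nonempty (Fin d) := ⟨⟨0, by omega⟩⟩
  have hne : ∀ᵐ w : E d, w ≠ v := by
    rw [ae_iff]
    simp
  apply lintegral_mono_ae
  filter_upwards [hne] with w hw
  calc _ ≤ ENNReal.ofReal (f w * ‖v - w‖ ^ γ) * (ENNReal.ofReal (N * P d v) * ∫⁻ σ : S d,
        ENNReal.ofReal (b (cosa (v - w) σ) * (1 + 2 * C * (
          min 1 ((1 - |cosa (v - w) σ|) * (1 + ‖w‖) ^ 2) /
            (1 + (‖v - w‖ / (1 + ‖w‖)) ^ 2)))) ∂surf d) := by
        gcongr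
        exact (H3 γ hγ hγ2 b hb hb0 f hf hf0 N hN v w (Ne.symm hw)).trans
          (mul_le_mul_right (h4 d hd C hC b hb hb0 v w (Ne.symm hw)) _)
    _ = _ := by ring

end Pool.Agent.H43.BZ
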