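import Pool.Agent.H43.BZ.Stm

set_option autoImplicit false

open MeasureTheory Metric Set Filter
open scoped RealInnerProductSpace ENNReal Topology

namespace Pool.Agent.H43.BZ

instance surf_fin (d : ℕ) : IsFiniteMeasure (surf d) := by
  unfold surf; infer_instance

variable {d : ℕ}

lemma norm_S (σ : S d) : ‖(σ : E d)‖ = 1 := by simp

lemma cosa_abs_le (z : E d) (σ : S d) : |cosa z σ| ≤ 1 := by
  unfold cosa
  rw [abs_div, abs_norm]
  have h := abs_real_inner_le_norm z (σ : E d)
  rw [norm_S, mul_one] at h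
  exact div_le_one_of_le₀ h (norm_nonneg _)

lemma cosa_mir (z σ : E d) : cosa z (mir z σ) = cosa z σ := by
  unfold cosa mir
  by_cases hz : z = 0
  · simp [hz]
  · have : ‖z‖ ≠ 0 := by simpa using hz
    rw [inner_sub_right, inner_smul_right, real_inner_self_eq_norm_sq]
    field_simp
    ring

lemma post_eq (v w σ : E d) : post v w σ = (1 / 2 : ℝ) • (v + w) + (1 / 2 : ℝ) • (‖v - w‖ • σ) := by
  unfold post
  rw [smul_smul]; ring_nf

lemma half1 (v w : E d) : (1 / 2 : ℝ) • (v + w) + (1 / 2 : ℝ) • (v - w) = v := by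
  rw [← smul_add, show v + w + (v - w) = (2 : ℝ) • v by rw [two_smul]; abel, smul_smul]; norm_num

lemma half2 (v w : E d) : (1 / 2 : ℝ) • (v + w) + (1 / 2 : ℝ) • -(v - w) = w := by
  rw [← smul_add, show v + w + -(v - w) = (2 : ℝ) • w by rw [two_smul]; abel, smul_smul]; norm_num

/-- `f` terms at a head-on or grazing direction vanish -/
lemma F_zero (f : E d → ℝ) (v w σ : E d) (hσ : ‖σ‖ = 1) (h : |cosa (v - w) σ| = 1) :
    F f v w σ = 0 := by
  have hz : v - w ≠ 0 := by
    intro h0
    rw [h0] at h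
    simp [cosa] at h
  have hn : ‖v - w‖ ≠ 0 := by simpa using hz
  have hsq : ⟪v - w, σ⟫ ^ 2 = ‖v - w‖ ^ 2 := by
    have := congrArg (· ^ 2) h
    simp only [sq_abs, one_pow, cosa, div_pow] at this
    field_simp at this
    exact this
  rcases (sq_eq_sq_iff_abs_eq_abs _ _).1 hsq with h1
  rw [abs_norm] at h1
  rcases abs_eq (norm_nonneg (v - w)) |>.1 h1 with h2 | h2
  · have h3 : v - w = ‖v - w‖ • σ := by
      have : ‖v - w - ‖v - w‖ • σ‖ ^ 2 = 0 := by
        rw [norm_sub_sq_real, inner_smul_right, norm_smul, norm_norm, hσ, h2]; ring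
      exact sub_eq_zero.1 (by simpa using this)
    rw [F, post_eq, post_eq, smul_neg, ← h3, half1, half2]; ring
  · have h3 : v - w = -(‖v - w‖ • σ) := by
      have : ‖v - w + ‖v - w‖ • σ‖ ^ 2 = 0 := by
        rw [norm_add_sq_real, inner_smul_right, norm_smul, norm_norm, hσ, h2]; ring
      exact eq_neg_of_add_eq_zero_left (by simpa using this)
    have h4 : ‖v - w‖ • σ = -(v - w) := by
      conv_rhs => rw [h3]
      simp
    rw [F, post_eq, post_eq, smul_neg, h4, neg_neg, half1, half2]; ring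

lemma mir_norm (z σ : E d) : ‖mir z σ‖ = ‖σ‖ := by
  by_cases hz : z = 0
  · simp [mir, hz]
  · have hn : ‖z‖ ≠ 0 := by simpa using hz
    have : ‖mir z σ‖ ^ 2 = ‖σ‖ ^ 2 := by
      unfold mir
      rw [norm_sub_sq_real, norm_smul, inner_smul_left, mul_pow, Real.norm_eq_abs, sq_abs]
      simp only [conj_trivial]
      field_simp
      ring
    exact (sq_eq_sq₀ (norm_nonneg _) (norm_nonneg _)).1 this

lemma J_zero (γ : ℝ) (b : ℝ → ℝ) (f : E d → ℝ) (v : E d) (p : E d × S d)
    (h : |cosa (v - p.1) p.2| = 1) : J γ b f v p = 0 := by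
  unfold J
  rw [F_zero f v p.1 p.2 (norm_S _) h,
    F_zero f v p.1 (mir (v - p.1) p.2) (by rw [mir_norm, norm_S]) (by rw [cosa_mir]; exact h)]
  simp

/-- truncated kernel -/
noncomputable def bt (b : ℝ → ℝ) (n : ℕ) (x : ℝ) : ℝ := if |x| < 1 - 1 / ((n : ℝ) + 2) then b x else 0

lemma bt_meas {b : ℝ → ℝ} (hb : Measurable b) (n : ℕ) : Measurable (bt b n) := by
  unfold bt
  refine Measurable.ite ?_ hb measurable_const
  exact measurableSet_lt (by fun_prop) measurable_const

lemma bt_nonneg {b : ℝ → ℝ} (hb : ∀ x, 0 ≤ b x) (n : ℕ) (x : ℝ) : 0 ≤ bt b n x := by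
  unfold bt
  split_ifs
  · exact hb x
  · exact le_rfl

lemma J_bt (γ : ℝ) (b : ℝ → ℝ) (f : E d → ℝ) (v : E d) (n : ℕ) (p : E d × S d) :
    J γ (bt b n) f v p = {q : E d × S d | |cosa (v - q.1) q.2| < 1 - 1 / ((n : ℝ) + 2)}.indicator
      (J γ b f v) p := by
  unfold J bt
  by_cases h : |cosa (v - p.1) p.2| < 1 - 1 / ((n : ℝ) + 2)
  · rw [indicator_of_mem (by exact h), if_pos h]
  · rw [indicator_of_notMem (by exact h), if_neg h]; simp

lemma J_bt_tendsto (γ : ℝ) (b : ℝ → ℝ) (f : E d → ℝ) (v : E d) (p : E d × S d) :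
    Tendsto (fun n => J γ (bt b n) f v p) atTop (𝓝 (J γ b f v p)) := by
  rcases (cosa_abs_le (v - p.1) p.2).lt_or_eq with h | h
  · apply tendsto_const_nhds.congr'
    have h1 : Tendsto (fun n : ℕ => 1 - 1 / ((n : ℝ) + 2)) atTop (𝓝 (1 - 0)) := by
      refine tendsto_const_nhds.sub ?_
      have := tendsto_one_div_add_atTop_nhds_zero_nat (𝕜 := ℝ)
      have h2 := this.comp (tendsto_add_atTop_nat 1)
      refine h2.congr fun n => ?_
      simp only [Function.comp_apply, Nat.cast_add, Nat.cast_one]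
      ring_nf
    rw [sub_zero] at h1
    filter_upwards [h1.eventually (lt_mem_nhds h)] with n hn
    rw [J_bt, indicator_of_mem]
    exact hn
  · rw [J_zero γ b f v p h]
    refine tendsto_const_nhds.congr fun n => (J_zero γ _ f v p h).symm

lemma cosa_meas (v : E d) : Measurable fun p : E d × S d => cosa (v - p.1) (p.2 : E d) := by
  unfold cosa
  fun_prop

theorem Q_le_of_bt (γ : ℝ) (b : ℝ → ℝ) (f : E d → ℝ) (v : E d) (B : ℝ)
    (hJ : Integrable (J γ b f v) (volume.prod (surf d)))
    (h : ∀ n, ∫ p, J γ (bt b n) f v p ∂(volume.prod (surf d)) ≤ B) : Q γ b f v ≤ B := by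
  unfold Q
  have key : Tendsto (fun n => ∫ p, J γ (bt b n) f v p ∂(volume.prod (surf d))) atTop
      (𝓝 (∫ p, J γ b f v p ∂(volume.prod (surf d)))) := by
    refine tendsto_integral_of_dominated_convergence (fun p => ‖J γ b f v p‖) ?_ hJ.norm ?_ ?_
    rotate_left
    · intro n
      refine Eventually.of_forall fun p => ?_
      rw [J_bt]
      exact norm_indicator_le_norm_self _ _
    · exact Eventually.of_forall fun p => J_bt_tendsto γ b f v p
    · intro n
      have : J γ (bt b n) f v = {q : E d × S d | |cosa (v - q.1) q.2| <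
          1 - 1 / ((n : ℝ) + 2)}.indicator (J γ b f v) := by
        funext p; exact J_bt γ b f v n p
      rw [this]
      refine hJ.aestronglyMeasurable.indicator ?_
      exact measurableSet_lt ((cosa_meas v).abs) measurable_const
  exact le_of_tendsto' key h

end Pool.Agent.H43.BZ
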