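import Pool.Agent.H43.BZ.Qle

set_option autoImplicit false

open MeasureTheory Metric Set Filter
open scoped RealInnerProductSpace ENNReal Topology

namespace Pool.Agent.H43.BZ

variable {d : ℕ}

/-- gain integrand -/
noncomputable def Ga (γ : ℝ) (b : ℝ → ℝ) (f : E d → ℝ) (v w σ : E d) : ℝ :=
  f (post v w (-σ)) * f (post v w σ) * (‖v - w‖ ^ γ * b (cosa (v - w) σ))

/-- loss integrand -/
noncomputable def Lo (γ : ℝ) (b : ℝ → ℝ) (f : E d → ℝ) (v w σ : E d) : ℝ :=
  f w * f v * (‖v - w‖ ^ γ * b (cosa (v - w) σ))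

lemma J_eq (γ : ℝ) (b : ℝ → ℝ) (f : E d → ℝ) (v : E d) (p : E d × S d) :
    J γ b f v p = (Ga γ b f v p.1 p.2 + Ga γ b f v p.1 (mir (v - p.1) p.2)) / 2 -
      Lo γ b f v p.1 p.2 := by
  unfold J Ga Lo F
  rw [cosa_mir]
  ring

lemma mir_meas (v : E d) : Measurable fun p : E d × S d => mir (v - p.1) (p.2 : E d) := by
  unfold mir
  fun_prop

lemma post_meas (v : E d) {g : E d × S d → E d} (hg : Measurable g) :
    Measurable fun p : E d × S d => post v p.1 (g p) := by
  unfold post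
  fun_prop

lemma cosa_meas' (v : E d) {g : E d × S d → E d} (hg : Measurable g) :
    Measurable fun p : E d × S d => cosa (v - p.1) (g p) := by
  unfold cosa
  fun_prop

lemma Ga_meas {γ : ℝ} {b : ℝ → ℝ} (hb : Measurable b) {f : E d → ℝ} (hf : Measurable f) (v : E d)
    {g : E d × S d → E d} (hg : Measurable g) :
    Measurable fun p : E d × S d => Ga γ b f v p.1 (g p) := by
  unfold Ga
  have h1 := hf.comp (post_meas v hg)
  have h2 := hf.comp (post_meas v hg.neg)
  have h3 := hb.comp (cosa_meas' v hg)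
  have h4 : Measurable fun p : E d × S d => ‖v - p.1‖ ^ γ := by fun_prop
  exact (h2.mul h1).mul (h4.mul h3)

lemma Lo_meas {γ : ℝ} {b : ℝ → ℝ} (hb : Measurable b) {f : E d → ℝ} (hf : Measurable f) (v : E d)
    {g : E d × S d → E d} (hg : Measurable g) :
    Measurable fun p : E d × S d => Lo γ b f v p.1 (g p) := by
  unfold Lo
  have h1 : Measurable fun p : E d × S d => f p.1 := hf.comp measurable_fst
  have h3 := hb.comp (cosa_meas' v hg)
  have h4 : Measurable fun p : E d × S d => ‖v - p.1‖ ^ γ := by fun_prop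
  exact (h1.mul measurable_const).mul (h4.mul h3)

lemma coe_meas : Measurable fun p : E d × S d => (p.2 : E d) :=
  measurable_subtype_coe.comp measurable_snd

lemma Ga_nonneg {γ : ℝ} {b : ℝ → ℝ} (hb : ∀ x, 0 ≤ b x) {f : E d → ℝ} (hf : ∀ y, 0 ≤ f y)
    (v w σ : E d) : 0 ≤ Ga γ b f v w σ :=
  mul_nonneg (mul_nonneg (hf _) (hf _)) (mul_nonneg (Real.rpow_nonneg (norm_nonneg _) _) (hb _))

lemma Lo_nonneg {γ : ℝ} {b : ℝ → ℝ} (hb : ∀ x, 0 ≤ b x) {f : E d → ℝ} (hf : ∀ y, 0 ≤ f y)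
    (v w σ : E d) : 0 ≤ Lo γ b f v w σ :=
  mul_nonneg (mul_nonneg (hf _) (hf _)) (mul_nonneg (Real.rpow_nonneg (norm_nonneg _) _) (hb _))

/-- the mirror as a linear isometry -/
noncomputable def mirL (z : E d) : E d ≃ₗᵢ[ℝ] E d := (ℝ ∙ z).reflection

lemma mirL_apply (z : E d) (hz : z ≠ 0) (σ : E d) : mirL z σ = mir z σ := by
  unfold mirL mir
  rw [Submodule.reflection_apply, Submodule.starProjection_singleton]
  have hn : ‖z‖ ≠ 0 := by simpa using hz
  rw [two_smul, ← add_smul]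
  congr 2
  simp only [RCLike.ofReal_real_eq_id, id_eq]
  ring

theorem mir_lint (hr : S_ROT) (z : E d) (hz : z ≠ 0) (h : E d → ℝ≥0∞) (hm : Measurable h) :
    ∫⁻ σ : S d, h (mir z σ) ∂surf d = ∫⁻ σ : S d, h σ ∂surf d := by
  have := hr d (mirL z) (fun σ => h σ) (hm.comp measurable_subtype_coe)
  rw [← this]
  refine lintegral_congr fun σ => ?_
  show _ = h (mirL z σ)
  rw [mirL_apply z hz]

end Pool.Agent.H43.BZ
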