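import Pool.Agent.H43.BZ.Qle2

set_option autoImplicit false

open MeasureTheory Metric Set Filter
open scoped RealInnerProductSpace ENNReal Topology

namespace Pool.Agent.H43.BZ

variable {d : ℕ}

lemma bt_le {s K : ℝ} {b : ℝ → ℝ} (hd : 2 ≤ d) (hs : 0 < s) (hK : 0 ≤ K) (hb : Ker d s K b) (n : ℕ)
    (x : ℝ) (hx : |x| ≤ 1) :
    bt b n x ≤ K * ((1 - |x|) / 2) ^ (-(((d : ℝ) - 1) / 2 + s)) := by
  have hd' : (2 : ℝ) ≤ d := by exact_mod_cast hd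
  unfold bt
  split_ifs with h
  · have hn : (0 : ℝ) < 1 / ((n : ℝ) + 2) := by positivity
    have h1 : |x| < 1 := by linarith
    have h2 := abs_lt.1 h1
    refine (hb.le x ⟨h2.1.le, h2.2⟩).trans (mul_le_mul_of_nonneg_left ?_ hK)
    refine Real.rpow_le_rpow_of_nonpos (by linarith) ?_ (by linarith)
    have := le_abs_self x
    linarith
  · exact mul_nonneg hK (Real.rpow_nonneg (by linarith) _)

lemma bt_bdd {s K : ℝ} {b : ℝ → ℝ} (hd : 2 ≤ d) (hs : 0 < s) (hK : 0 ≤ K) (hb : Ker d s K b) (n : ℕ) :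
    ∃ M : ℝ, 0 ≤ M ∧ ∀ x, bt b n x ≤ M := by
  have hd' : (2 : ℝ) ≤ d := by exact_mod_cast hd
  refine ⟨K * ((1 / ((n : ℝ) + 2)) / 2) ^ (-(((d : ℝ) - 1) / 2 + s)), by positivity, ?_⟩
  intro x
  unfold bt
  split_ifs with h
  · have hn : (0 : ℝ) < 1 / ((n : ℝ) + 2) := by positivity
    have h1 : |x| < 1 := by linarith
    have h2 := abs_lt.1 h1
    refine (hb.le x ⟨h2.1.le, h2.2⟩).trans (mul_le_mul_of_nonneg_left ?_ hK)
    refine Real.rpow_le_rpow_of_nonpos (by positivity) ?_ (by linarith)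
    have := le_abs_self x
    linarith
  · positivity

lemma rpow_div_le {γ r L : ℝ} (h0 : 0 ≤ γ) (h2 : γ ≤ 2) (hr : 0 ≤ r) (hL : 1 ≤ L) :
    r ^ γ / (1 + (r / L) ^ 2) ≤ L ^ γ := by
  have hL0 : 0 < L := by linarith
  rw [div_le_iff₀ (by positivity)]
  have h1 : r ^ γ = L ^ γ * (r / L) ^ γ := by
    rw [← Real.mul_rpow hL0.le (by positivity)]
    congr 1
    field_simp
  rw [h1]
  refine mul_le_mul_of_nonneg_left ?_ (by positivity)
  have hq : 0 ≤ r / L := by positivity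
  rcases le_total (r / L) 1 with h | h
  · have := Real.rpow_le_one hq h h0
    nlinarith [sq_nonneg (r / L)]
  · have := Real.rpow_le_rpow_of_exponent_le h h2
    rw [Real.rpow_two] at this
    linarith

lemma cosa_eq (z σ : E d) : cosa z σ = ⟪(1 / ‖z‖) • z, σ⟫ := by
  unfold cosa
  rw [inner_smul_left]
  simp only [conj_trivial]
  ring

lemma unit_norm (z : E d) (hz : z ≠ 0) : ‖(1 / ‖z‖) • z‖ = 1 := by
  have hn : ‖z‖ ≠ 0 := by simpa using hz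
  rw [norm_smul, norm_div, norm_one, norm_norm]
  field_simp

/-- the error term -/
lemma err_w {s γ K C CE : ℝ} {b : ℝ → ℝ} (hd : 2 ≤ d) (hs : 0 < s) (hγ : 0 ≤ γ) (hγ2 : γ ≤ 2)
    (hK : 0 ≤ K) (hC : 0 ≤ C) (hCE : 0 ≤ CE)
    (hE : ∀ e : E d, ‖e‖ = 1 → ∀ L : ℝ, 1 ≤ L →
    ∫⁻ σ : S d, ENNReal.ofReal (((1 - |⟪e, (σ : E d)⟫|) / 2) ^ (-(((d : ℝ) - 1) / 2 + s)) *
      min 1 ((1 - |⟪e, (σ : E d)⟫|) * L ^ 2)) ∂surf d ≤ ENNReal.ofReal (CE * L ^ (2 * s)))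
    (hb : Ker d s K b) (n : ℕ) (fw : ℝ) (hf : 0 ≤ fw) (v w : E d) (hvw : w ≠ v) :
    ENNReal.ofReal (fw * ‖v - w‖ ^ γ) * ∫⁻ σ : S d, ENNReal.ofReal (bt b n (cosa (v - w) σ) * (C * (
          min 1 ((1 - |cosa (v - w) σ|) * (1 + ‖w‖) ^ 2) /
            (1 + (‖v - w‖ / (1 + ‖w‖)) ^ 2)))) ∂surf d ≤
      ENNReal.ofReal (C * K * CE * (fw * (1 + ‖w‖) ^ (γ + 2 * s))) := by
  have hz : v - w ≠ 0 := sub_ne_zero.2 (Ne.symm hvw)
  have hL : 1 ≤ 1 + ‖w‖ := by linarith [norm_nonneg w]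
  have hL0 : 0 < 1 + ‖w‖ := by linarith
  set L := 1 + ‖w‖ with hLdef
  set r := ‖v - w‖ with hr
  have hr0 : 0 ≤ r := norm_nonneg _
  have h1 : ∫⁻ σ : S d, ENNReal.ofReal (bt b n (cosa (v - w) σ) * (C * (
          min 1 ((1 - |cosa (v - w) σ|) * L ^ 2) / (1 + (r / L) ^ 2)))) ∂surf d ≤
      ENNReal.ofReal (C * K / (1 + (r / L) ^ 2)) * ENNReal.ofReal (CE * L ^ (2 * s)) := by
    refine le_trans ?_ (mul_le_mul_right (hE _ (unit_norm (v - w) hz) L hL) _)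
    rw [← lintegral_const_mul' _ _ ENNReal.ofReal_ne_top]
    refine lintegral_mono fun σ => ?_
    rw [← ENNReal.ofReal_mul (by positivity)]
    refine ENNReal.ofReal_le_ofReal ?_
    rw [← cosa_eq]
    have hx := cosa_abs_le (v - w) σ
    have h2 := bt_le hd hs hK hb n _ hx
    have h3 : 0 ≤ min 1 ((1 - |cosa (v - w) σ|) * L ^ 2) :=
      le_min zero_le_one (mul_nonneg (by linarith) (by positivity))
    calc _ ≤ (K * ((1 - |cosa (v - w) ↑σ|) / 2) ^ (-(((d : ℝ) - 1) / 2 + s))) * (C * (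
          min 1 ((1 - |cosa (v - w) σ|) * L ^ 2) / (1 + (r / L) ^ 2))) := by
          refine mul_le_mul_of_nonneg_right h2 ?_
          exact mul_nonneg hC (div_nonneg h3 (by positivity))
      _ = _ := by ring
  refine (mul_le_mul_right h1 _).trans ?_
  have hp1 : 0 ≤ r ^ γ := Real.rpow_nonneg hr0 _
  rw [← ENNReal.ofReal_mul (by positivity), ← ENNReal.ofReal_mul (by positivity)]
  refine ENNReal.ofReal_le_ofReal ?_
  have h4 := rpow_div_le hγ hγ2 hr0 hL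
  have h5 : L ^ (γ + 2 * s) = L ^ γ * L ^ (2 * s) := Real.rpow_add hL0 _ _
  rw [h5]
  have h6 : 0 ≤ L ^ (2 * s) := Real.rpow_nonneg hL0.le _
  calc fw * r ^ γ * (C * K / (1 + (r / L) ^ 2) * (CE * L ^ (2 * s)))
      = (fw * C * K * CE * L ^ (2 * s)) * (r ^ γ / (1 + (r / L) ^ 2)) := by ring
    _ ≤ (fw * C * K * CE * L ^ (2 * s)) * L ^ γ := by gcongr
    _ = _ := by ring

end Pool.Agent.H43.BZ
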