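import Pool.Agent.H43.BZ.Stm

/-!
# Interface, second part: all exponents `-d < γ ≤ 2 - 2s`, rate of blow-up
-/

set_option autoImplicit false

open MeasureTheory Metric Set Filter Topology
open scoped RealInnerProductSpace ENNReal

namespace Pool.Agent.H43.BZ

/-- the weight in the collision moment: it is `≤ (1+‖w‖)^(γ+2s)` for `γ ≥ 0` -/
noncomputable def kk {d : ℕ} (γ s : ℝ) (v w : E d) : ℝ :=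
  ‖v - w‖ ^ γ * (1 + ‖w‖) ^ (2 * s) / (1 + (‖v - w‖ / (1 + ‖w‖)) ^ 2)

/-- the collision moment `Λ(t) = sup_{x,v} ∫ f(t,x,w) kk(v,w) dw` -/
noncomputable def Lam {d : ℕ} (γ s : ℝ) (f : ℝ → E d → E d → ℝ) (t : ℝ) : ℝ :=
  ⨆ q : E d × E d, ∫ w, f t q.1 w * kk γ s q.2 w

/-- **G2n**: `S_G2` for every real `γ` -/
def S_G2n : Prop := ∀ d : ℕ, 2 ≤ d → ∀ γ : ℝ, ∀ b : ℝ → ℝ, Measurable b →
    (∀ x, 0 ≤ b x) → ∀ f : E d → ℝ, Measurable f → (∀ y, 0 ≤ f y) → ∀ v : E d,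
    ∫⁻ p : E d × S d, ENNReal.ofReal (f (post v p.1 (-(p.2 : E d))) * f (post v p.1 p.2) *
        (‖v - p.1‖ ^ γ * (b (cosa (v - p.1) p.2) + b (-cosa (v - p.1) p.2))) *
        ((if 0 < cosa (v - p.1) p.2 then chi v (post v p.1 p.2) else 0) +
         (if cosa (v - p.1) p.2 < 0 then 1 - chi v (post v p.1 (-(p.2 : E d))) else 0)))
      ∂(volume.prod (surf d)) =
    ∫⁻ w : E d, ENNReal.ofReal (f w * ‖v - w‖ ^ γ) * ∫⁻ σ : S d,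
      (if 0 < cosa (v - w) σ then ENNReal.ofReal (2 ^ (d - 1) * cosa (v - w) σ ^ (d - 2) *
        (b (2 * cosa (v - w) σ ^ 2 - 1) + b (1 - 2 * cosa (v - w) σ ^ 2)) *
        (cosa (v - w) σ ^ (-((d : ℝ) + γ)) * prof f v w σ)) else 0) ∂surf d

/-- **G3n**: `S_G3` for every `γ ≤ 2` -/
def S_G3n : Prop := ∀ d : ℕ, 2 ≤ d → ∃ C : ℝ, 0 ≤ C ∧ ∀ γ : ℝ, γ ≤ 2 →
    ∀ b : ℝ → ℝ, Measurable b → (∀ x, 0 ≤ b x) →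
    ∀ f : E d → ℝ, Measurable f → (∀ y, 0 ≤ f y) → ∀ N : ℝ, (∀ y, f y ≤ N * P d y) →
    ∀ v w : E d, v ≠ w →
    ∫⁻ σ : S d,
      (if 0 < cosa (v - w) σ then ENNReal.ofReal (2 ^ (d - 1) * cosa (v - w) σ ^ (d - 2) *
        (b (2 * cosa (v - w) σ ^ 2 - 1) + b (1 - 2 * cosa (v - w) σ ^ 2)) *
        (cosa (v - w) σ ^ (-((d : ℝ) + γ)) * prof f v w σ)) else 0) ∂surf d ≤
    ENNReal.ofReal (N * P d v) * ∫⁻ σ : S d,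
      (if 0 < cosa (v - w) σ then ENNReal.ofReal (2 ^ (d - 1) * cosa (v - w) σ ^ (d - 2) *
        (b (2 * cosa (v - w) σ ^ 2 - 1) + b (1 - 2 * cosa (v - w) σ ^ 2)) *
        bnd C v w (2 * cosa (v - w) σ ^ 2 - 1)) else 0) ∂surf d

/-- **GAINn** -/
def S_GAINn : Prop := ∀ d : ℕ, 2 ≤ d → ∃ C : ℝ, 0 ≤ C ∧ ∀ (γ : ℝ), γ ≤ 2 →
    ∀ b : ℝ → ℝ, Measurable b → (∀ x, 0 ≤ b x) →
    ∀ f : E d → ℝ, Measurable f → (∀ y, 0 ≤ f y) → ∀ N : ℝ, (∀ y, f y ≤ N * P d y) →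
    ∀ v : E d,
    ∫⁻ p : E d × S d, ENNReal.ofReal (f (post v p.1 (-(p.2 : E d))) * f (post v p.1 p.2) *
        (‖v - p.1‖ ^ γ * b (cosa (v - p.1) p.2))) ∂(volume.prod (surf d)) ≤
      ENNReal.ofReal (N * P d v) * ∫⁻ w : E d, ENNReal.ofReal (f w * ‖v - w‖ ^ γ) *
        ∫⁻ σ : S d, ENNReal.ofReal (b (cosa (v - w) σ) * (1 + C * (
          min 1 ((1 - |cosa (v - w) σ|) * (1 + ‖w‖) ^ 2) /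
            (1 + (‖v - w‖ / (1 + ‖w‖)) ^ 2)))) ∂surf d

/-- **QLEn** (done by helper43): the contact inequality. -/
def S_QLEn : Prop := ∀ d : ℕ, 2 ≤ d → ∀ s γ K : ℝ, 0 < s → s < 1 → -(d : ℝ) < γ →
    γ + 2 * s ≤ 2 → 0 ≤ K → ∃ C : ℝ, 0 ≤ C ∧ ∀ b : ℝ → ℝ, Ker d s K b →
    ∀ f : E d → ℝ, Measurable f → (∀ y, 0 ≤ f y) → ∀ N : ℝ, (∀ y, f y ≤ N * P d y) →
    ∀ v : E d, f v = N * P d v → Integrable (J γ b f v) (volume.prod (surf d)) →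
    Integrable (fun w => f w * (‖v - w‖ ^ γ * (1 + ‖w‖) ^ (2 * s))) →
    Q γ b f v ≤ C * (N * P d v) * ∫ w, f w * kk γ s v w

/-- **KKI**: uniform integrability of the weight.  For `γ ≥ 0`: `r^γ ≤ L^γ (1 + (r/L)²)`
(`r = ‖v-w‖`, `L = 1+‖w‖`, `t^γ ≤ 1 + t²` for `0 ≤ γ ≤ 2`), so `kk ≤ L^(γ+2s) ≤ L²`.  For `γ < 0`:
`kk ≤ L²` if `r ≥ 1` and `kk ≤ r^γ L²` if `r < 1`, and `∫_{r<1} r^γ dw < ∞` independent of `v`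
(`-d < γ`; e.g. `Measure.integrable_norm_rpow...`/`integrableOn_rpow_norm` or polar coordinates
`integral_fun_norm_addHaar`); `∫ L^(2-(d+7)) < ∞` (`integrable_one_add_norm`).  For the second
integrability, `r^γ ≤ (1+‖v‖)² (1+‖w‖)²` if `γ ≥ 0`. -/
def S_KKI : Prop := ∀ d : ℕ, 2 ≤ d → ∀ s γ : ℝ, 0 < s → s < 1 → -(d : ℝ) < γ → γ + 2 * s ≤ 2 →
    ∃ C : ℝ, ∀ v : E d, Integrable (fun w : E d => kk γ s v w * ((1 + ‖w‖) ^ (d + 7))⁻¹) ∧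
      ∫ w, kk γ s v w * ((1 + ‖w‖) ^ (d + 7))⁻¹ ≤ C ∧
      Integrable (fun w : E d => (‖v - w‖ ^ γ * (1 + ‖w‖) ^ (2 * s)) * ((1 + ‖w‖) ^ (d + 7))⁻¹)

/-- **SUPn**: `k ≥ 0` a kernel with `∫ k(v,w) (1+‖w‖)^(-m) dw ≤ C` for all `v`.  Put
`|g|_m = sup_{x,w} (1+‖w‖)^m |g(x,w)|`; then `|∫ (f t x w - f t₀ x w) k(v,w) dw| ≤
C |f t - f t₀|_m`, hence the suprema over `(x,v)` differ by at most `C |f t - f t₀|_m`, and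
`|f t - f t₀|_m → 0` as `t → t₀` in `[0,T)`: for `‖w‖ ≥ R` both are small by the decay with
`q = m + 1` on `[0,T']`, `t₀ < T' < T` (take `T' = (t₀+T)/2`), for `‖w‖ ≤ R` and `x` in the unit
cube (periodicity; helper643 has `cube`/`exists_cube` in Pool.Agent.H643.BZ.Sup) by uniform
continuity on a compact set.  (Mathlib: `ciSup_le`, `le_ciSup`.) -/
def S_SUPn : Prop := ∀ (d : ℕ) (T : ℝ) (f : ℝ → E d → E d → ℝ) (k : E d → E d → ℝ) (m : ℕ)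
    (C : ℝ), 0 < T →
    (∀ v w, 0 ≤ k v w) →
    (∀ v, Integrable (fun w => k v w * ((1 + ‖w‖) ^ m)⁻¹)) →
    (∀ v, ∫ w, k v w * ((1 + ‖w‖) ^ m)⁻¹ ≤ C) →
    (∀ t ∈ Ico 0 T, ∀ x v, 0 ≤ f t x v) →
    ContinuousOn (fun p : ℝ × E d × E d => f p.1 p.2.1 p.2.2) (Ico 0 T ×ˢ univ) →
    (∀ t ∈ Ico 0 T, ∀ x v, ∀ i, f t (x + EuclideanSpace.single i 1) v = f t x v) →
    (∀ T' ∈ Ico 0 T, ∀ q : ℕ, ∃ C : ℝ, ∀ t ∈ Icc 0 T', ∀ x v, (1 + ‖v‖) ^ q * f t x v ≤ C) →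
    ContinuousOn (fun t => ⨆ q : E d × E d, ∫ w, f t q.1 w * k q.2 w) (Ico 0 T) ∧
    (∀ t ∈ Ico 0 T, BddAbove (range fun q : E d × E d => ∫ w, f t q.1 w * k q.2 w)) ∧
    (∀ t ∈ Ico 0 T, ∀ x v, Integrable fun w => f t x w * k v w)

/-- **FINn** (`theorem FINn (hc : S_CON) (hq : S_QLEn) (hs : S_SUPn) (hk : S_KKI) : S_FINn`): as
helper643's `Pool.Agent.H643.BZ.FIN`, now with `k = kk γ s` (`m = d + 7`); the integrability of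
`f w * (‖v-w‖^γ (1+‖w‖)^(2s))` needed in QLEn follows from the decay and the last part of KKI. -/
def S_FINn : Prop := ∀ d : ℕ, 2 ≤ d → ∀ s γ K : ℝ, 0 < s → s < 1 → -(d : ℝ) < γ →
    γ + 2 * s ≤ 2 → 0 ≤ K → ∃ C : ℝ, 0 ≤ C ∧ ∀ b : ℝ → ℝ, Ker d s K b →
    ∀ (T : ℝ) (f : ℝ → E d → E d → ℝ), 0 < T → Sol d γ b T f →
    ContinuousOn (Lam γ s f) (Ico 0 T) ∧ (∀ t ∈ Ico 0 T, 0 ≤ Lam γ s f t) ∧
    ∀ N : ℝ, (∀ x v, f 0 x v ≤ N * P d v) →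
    ∀ t ∈ Ico 0 T, ∀ x v, f t x v ≤ N * Real.exp (C * ∫ τ in (0:ℝ)..t, Lam γ s f τ) * P d v

/-- **LAMLE**: `Λ(t) ≤ C₁ N` if `f(t) ≤ N P` (from KKI: `P(w) ≤ C (1+‖w‖)^(-(d+7))` since
`(1+‖w‖)² ≤ 2(1+‖w‖²)`). -/
def S_LAMLE : Prop := ∀ d : ℕ, 2 ≤ d → ∀ s γ : ℝ, 0 < s → s < 1 → -(d : ℝ) < γ → γ + 2 * s ≤ 2 →
    ∃ C : ℝ, 0 ≤ C ∧ ∀ (f : ℝ → E d → E d → ℝ) (t N : ℝ), (∀ x v, 0 ≤ f t x v) →
    (∀ x, Measurable (f t x)) → (∀ x v, f t x v ≤ N * P d v) → Lam γ s f t ≤ C * N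

/-- **ODE** (pure calculus): `Λ ≥ 0` continuous on `[0,T)`, `Λ(t) ≤ a exp(C ∫_0^t Λ)`; then
`y(t) = exp(-C ∫_0^t Λ)` satisfies `y' = -CΛy ≥ -C a`, so `y(t) ≥ 1 - C a t ≥ 1/2`
when `C a T ≤ 1/2`. -/
def S_ODE : Prop := ∀ (T C a : ℝ) (L : ℝ → ℝ), 0 < T → 0 ≤ C → 0 ≤ a →
    ContinuousOn L (Ico 0 T) → (∀ t ∈ Ico 0 T, 0 ≤ L t) →
    (∀ t ∈ Ico 0 T, L t ≤ a * Real.exp (C * ∫ τ in (0:ℝ)..t, L τ)) → C * a * T ≤ 1 / 2 →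
    ∀ t ∈ Ico 0 T, Real.exp (C * ∫ τ in (0:ℝ)..t, L τ) ≤ 2

/-- **RATE** (`theorem RATE (hf : S_FINn) (hl : S_LAMLE) (ho : S_ODE) : S_RATE`): `g(t) = f(t₀+t)`
is a solution on `[0,T-t₀)`, `Λ_g(t) ≤ C₁ N exp(C ∫_0^t Λ_g)` by FINn and LAMLE; ODE gives
`g ≤ 2 N P` if `C C₁ N (T-t₀) ≤ 1/2`; on `[0,t₀]` use the decay. -/
def S_RATE : Prop := ∀ d : ℕ, 2 ≤ d → ∀ s γ K : ℝ, 0 < s → s < 1 → -(d : ℝ) < γ →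
    γ + 2 * s ≤ 2 → 0 ≤ K → ∃ c : ℝ, 0 < c ∧ ∀ b : ℝ → ℝ, Ker d s K b →
    ∀ (T : ℝ) (f : ℝ → E d → E d → ℝ), 0 < T → Sol d γ b T f →
    ∀ t₀ ∈ Ico 0 T, ∀ N : ℝ, (∀ x v, f t₀ x v ≤ N * P d v) → N * (T - t₀) ≤ c →
    (∀ t ∈ Ico t₀ T, ∀ x v, f t x v ≤ 2 * N * P d v) ∧
    ∃ B : ℝ, ∀ t ∈ Ico 0 T, ∀ x v, f t x v ≤ B * P d v

/-- **HYDn**: as in helper350's `HYD`: bounds for mass, energy and entropy from `f ≤ B P`. -/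
def S_HYDn : Prop := ∀ d : ℕ, 2 ≤ d → ∀ (γ : ℝ) (b : ℝ → ℝ) (T : ℝ) (f : ℝ → E d → E d → ℝ),
    0 < T → Sol d γ b T f → ∀ B : ℝ, (∀ t ∈ Ico 0 T, ∀ x v, f t x v ≤ B * P d v) →
    ∃ B' : ℝ, ∀ t ∈ Ico 0 T, ∀ x, ∫ v, f t x v ≤ B' ∧ ∫ v, f t x v * ‖v‖ ^ 2 ≤ B' ∧
      ∫ v, f t x v * Real.log (f t x v) ≤ B'

/-- **LAMHARD**: for `γ ≥ 0`, `kk γ s v w ≤ 2 (1 + ‖w‖²)`, so `Λ(t) ≤ 2 sup_x (ρ + E)`; stated for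
each `t` (from `kk ≤ L^(γ+2s) ≤ L² ≤ 2(1+‖w‖²)`). -/
def S_LAMHARD : Prop := ∀ d : ℕ, 2 ≤ d → ∀ s γ : ℝ, 0 < s → s < 1 → 0 ≤ γ → γ + 2 * s ≤ 2 →
    ∀ (f : ℝ → E d → E d → ℝ) (t B : ℝ), (∀ x v, 0 ≤ f t x v) →
    (∀ x, Integrable (fun v => f t x v * (1 + ‖v‖) ^ (2 : ℕ))) → (∀ x, Measurable (f t x)) →
    (∀ x, ∫ v, f t x v * (1 + ‖v‖) ^ (γ + 2 * s) ≤ B) → Lam γ s f t ≤ B

end Pool.Agent.H43.BZ
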