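import Pool.Agent.H43.BZ.Qle3
import Pool.Agent.H43.BZ.Stm2

set_option autoImplicit false

open MeasureTheory Metric Set Filter
open scoped RealInnerProductSpace ENNReal Topology

namespace Pool.Agent.H43.BZ

variable {d : ℕ}

/-- the error term -/
lemma err_wn {s γ K C CE : ℝ} {b : ℝ → ℝ} (hd : 2 ≤ d) (hs : 0 < s)
    (hK : 0 ≤ K) (hC : 0 ≤ C) (hCE : 0 ≤ CE)
    (hE : ∀ e : E d, ‖e‖ = 1 → ∀ L : ℝ, 1 ≤ L →
    ∫⁻ σ : S d, ENNReal.ofReal (((1 - |⟪e, (σ : E d)⟫|) / 2) ^ (-(((d : ℝ) - 1) / 2 + s)) *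
      min 1 ((1 - |⟪e, (σ : E d)⟫|) * L ^ 2)) ∂surf d ≤ ENNReal.ofReal (CE * L ^ (2 * s)))
    (hb : Ker d s K b) (n : ℕ) (fw : ℝ) (hf : 0 ≤ fw) (v w : E d) (hvw : w ≠ v) :
    ENNReal.ofReal (fw * ‖v - w‖ ^ γ) * ∫⁻ σ : S d, ENNReal.ofReal (bt b n (cosa (v - w) σ) * (C * (
          min 1 ((1 - |cosa (v - w) σ|) * (1 + ‖w‖) ^ 2) /
            (1 + (‖v - w‖ / (1 + ‖w‖)) ^ 2)))) ∂surf d ≤
      ENNReal.ofReal (C * K * CE * (fw * kk γ s v w)) := by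
  have hz : v - w ≠ 0 := sub_ne_zero.2 (Ne.symm hvw)
  have hL : 1 ≤ 1 + ‖w‖ := by linarith [norm_nonneg w]
  have hL0 : 0 < 1 + ‖w‖ := by linarith
  set L := 1 + ‖w‖ with hLdef
  set r := ‖v - w‖ with hr
  have hr0 : 0 ≤ r := norm_nonneg _
  have h1 : ∫⁻ σ : S d, ENNReal.ofReal (bt b n (cosa (v - w) σ) * (C * (
          min 1 ((1 - |cosa (v - w) σ|) * L ^ 2) / (1 + (r / L) ^ 2)))) ∂surf d ≤
      ENNReal.ofReal (C * K / (1 + (r / L) ^ 2)) * ENNReal.ofReal (CE * L ^ (2 * s)) := by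
    refine le_trans ?_ (mul_le_mul_right (hE _ (unit_norm (v - w) hz) L hL) _)
    rw [← lintegral_const_mul' _ _ ENNReal.ofReal_ne_top]
    refine lintegral_mono fun σ => ?_
    rw [← ENNReal.ofReal_mul (by positivity)]
    refine ENNReal.ofReal_le_ofReal ?_
    rw [← cosa_eq]
    have hx := cosa_abs_le (v - w) σ
    have h2 := bt_le hd hs hK hb n _ hx
    have h3 : 0 ≤ min 1 ((1 - |cosa (v - w) σ|) * L ^ 2) :=
      le_min zero_le_one (mul_nonneg (by linarith) (by positivity))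
    calc _ ≤ (K * ((1 - |cosa (v - w) ↑σ|) / 2) ^ (-(((d : ℝ) - 1) / 2 + s))) * (C * (
          min 1 ((1 - |cosa (v - w) σ|) * L ^ 2) / (1 + (r / L) ^ 2))) := by
          refine mul_le_mul_of_nonneg_right h2 ?_
          exact mul_nonneg hC (div_nonneg h3 (by positivity))
      _ = _ := by ring
  refine (mul_le_mul_right h1 _).trans ?_
  have hp1 : 0 ≤ r ^ γ := Real.rpow_nonneg hr0 _
  rw [← ENNReal.ofReal_mul (by positivity), ← ENNReal.ofReal_mul (by positivity)]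
  refine ENNReal.ofReal_le_ofReal ?_
  refine le_of_eq ?_
  unfold kk
  rw [← hr, ← hLdef]
  ring

end Pool.Agent.H43.BZ
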