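import Pool.Agent.H43.BZ.Qle3

set_option autoImplicit false

open MeasureTheory Metric Set Filter
open scoped RealInnerProductSpace ENNReal Topology

namespace Pool.Agent.H43.BZ

variable {d : ℕ}

lemma lo_lint {γ : ℝ} {b : ℝ → ℝ} (hb : Measurable b) {f : E d → ℝ}
    (hf : Measurable f) (hf0 : ∀ y, 0 ≤ f y) (v : E d) :
    ∫⁻ p : E d × S d, ENNReal.ofReal (Lo γ b f v p.1 p.2) ∂(volume.prod (surf d)) =
      ENNReal.ofReal (f v) * ∫⁻ w : E d, ENNReal.ofReal (f w * ‖v - w‖ ^ γ) *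
        ∫⁻ σ : S d, ENNReal.ofReal (b (cosa (v - w) σ)) ∂surf d := by
  have hm : Measurable fun p : E d × S d => ENNReal.ofReal (Lo γ b f v p.1 p.2) :=
    (Lo_meas hb hf v coe_meas).ennreal_ofReal
  rw [lintegral_prod _ hm.aemeasurable, ← lintegral_const_mul' _ _ ENNReal.ofReal_ne_top]
  refine lintegral_congr fun w => ?_
  rw [← lintegral_const_mul' _ _ ENNReal.ofReal_ne_top,
    ← lintegral_const_mul' _ _ ENNReal.ofReal_ne_top]
  refine lintegral_congr fun σ => ?_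
  have h1 : 0 ≤ ‖v - w‖ ^ γ := Real.rpow_nonneg (norm_nonneg _) _
  rw [← ENNReal.ofReal_mul (mul_nonneg (hf0 _) h1), ← ENNReal.ofReal_mul (hf0 _)]
  unfold Lo
  congr 1
  ring

/-- gain ≤ loss + error for the truncated kernel -/
lemma gain_le_loss (hG : S_GAIN) (hE : S_ERR) (hd : 2 ≤ d) {s : ℝ} (hs : 0 < s) (hs1 : s < 1)
    {K : ℝ} (hK : 0 ≤ K) : ∃ C : ℝ, 0 ≤ C ∧ ∀ γ : ℝ, 0 ≤ γ → γ + 2 * s ≤ 2 →
    ∀ b : ℝ → ℝ, Ker d s K b →
    ∀ f : E d → ℝ, Measurable f → (∀ y, 0 ≤ f y) → ∀ N : ℝ, (∀ y, f y ≤ N * P d y) →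
    ∀ v : E d, f v = N * P d v → Integrable (fun w => f w * (1 + ‖w‖) ^ (γ + 2 * s)) → ∀ n : ℕ,
    ∫⁻ p : E d × S d, ENNReal.ofReal (Ga γ (bt b n) f v p.1 p.2) ∂(volume.prod (surf d)) ≤
      ∫⁻ p : E d × S d, ENNReal.ofReal (Lo γ (bt b n) f v p.1 p.2) ∂(volume.prod (surf d)) +
      ENNReal.ofReal (C * (N * P d v) * ∫ w, f w * (1 + ‖w‖) ^ (γ + 2 * s)) := by
  obtain ⟨C, hC, HG⟩ := hG d hd
  obtain ⟨CE, hCE, HE⟩ := hE d hd s hs hs1
  refine ⟨C * K * CE, by positivity, ?_⟩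
  intro γ hγ hγs b hb f hf hf0 N hN v hv hint n
  have hbm := bt_meas hb.meas n
  have hb0 := bt_nonneg hb.nonneg n
  have hNP : 0 ≤ N * P d v := by rw [← hv]; exact hf0 v
  have hγ2 : γ ≤ 2 := by linarith
  have h1 := HG γ hγ hγ2 (bt b n) hbm hb0 f hf hf0 N hN v
  refine h1.trans ?_
  rw [lo_lint hbm hf hf0 v, hv]
  have hne : ∀ᵐ w : E d, w ≠ v := by
    have : Nonempty (Fin d) := ⟨⟨0, by omega⟩⟩
    rw [ae_iff]
    simp
  have h2 : ∫⁻ w : E d, ENNReal.ofReal (f w * ‖v - w‖ ^ γ) *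
        ∫⁻ σ : S d, ENNReal.ofReal (bt b n (cosa (v - w) σ) * (1 + C * (
          min 1 ((1 - |cosa (v - w) σ|) * (1 + ‖w‖) ^ 2) /
            (1 + (‖v - w‖ / (1 + ‖w‖)) ^ 2)))) ∂surf d ≤
      (∫⁻ w : E d, ENNReal.ofReal (f w * ‖v - w‖ ^ γ) *
        ∫⁻ σ : S d, ENNReal.ofReal (bt b n (cosa (v - w) σ)) ∂surf d) +
      ENNReal.ofReal (C * K * CE * ∫ w, f w * (1 + ‖w‖) ^ (γ + 2 * s)) := by
    rw [← integral_const_mul, ofReal_integral_eq_lintegral_ofReal]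
    rotate_left
    · exact hint.const_mul _
    · refine Eventually.of_forall fun w => ?_
      have : 0 ≤ f w * (1 + ‖w‖) ^ (γ + 2 * s) :=
        mul_nonneg (hf0 _) (Real.rpow_nonneg (by positivity) _)
      positivity
    have hm : Measurable fun w : E d => ENNReal.ofReal (C * K * CE * (f w * (1 + ‖w‖) ^ (γ + 2 * s))) := by
      have : Measurable fun w : E d => (1 + ‖w‖) ^ (γ + 2 * s) := by fun_prop
      exact ((hf.mul this).const_mul _).ennreal_ofReal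
    rw [← lintegral_add_right _ hm]
    refine lintegral_mono_ae ?_
    filter_upwards [hne] with w hw
    have h3 := err_w (γ := γ) hd hs hγ hγ2 hK hC hCE HE hb n (f w) (hf0 w) v w hw
    refine le_trans ?_ (add_le_add le_rfl h3)
    rw [← mul_add]
    refine mul_le_mul_right ?_ _
    have hx : ∀ σ : S d, 0 ≤ C * (min 1 ((1 - |cosa (v - w) σ|) * (1 + ‖w‖) ^ 2) /
            (1 + (‖v - w‖ / (1 + ‖w‖)) ^ 2)) := fun σ =>
      mul_nonneg hC (div_nonneg (le_min zero_le_one (mul_nonneg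
        (by linarith [cosa_abs_le (v - w) σ]) (by positivity))) (by positivity))
    have hm1 : Measurable fun σ : S d => ENNReal.ofReal (bt b n (cosa (v - w) σ)) := by
      refine (hbm.comp ?_).ennreal_ofReal
      unfold cosa
      fun_prop
    rw [← lintegral_add_left hm1]
    refine lintegral_mono fun σ => ?_
    rw [← ENNReal.ofReal_add (hb0 _) (mul_nonneg (hb0 _) (hx σ))]
    refine ENNReal.ofReal_le_ofReal (le_of_eq (by ring))
  calc _ ≤ ENNReal.ofReal (N * P d v) * _ := mul_le_mul_right h2 _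
    _ = _ := by
      rw [mul_add, ← ENNReal.ofReal_mul hNP]
      congr 2
      ring

end Pool.Agent.H43.BZ
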