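import Pool.Agent.H43.BZ.Defs

/-!
# Interface: blow-up criterion for the non-cutoff Boltzmann equation (hard potentials)

All definitions are in `Defs.lean`.  Every `S_X` below is to be proved as `theorem X : S_X`.
-/

set_option autoImplicit false

open MeasureTheory Metric Set
open scoped RealInnerProductSpace ENNReal

namespace Pool.Agent.H43.BZ

open Classical in
/-- **KEY1** (pure algebra in an inner product space; checked numerically).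
Write `D = 1 + ‖v‖²`, `L = 1 + ‖w‖`, `r = ‖v - w‖`, `n = 4(d+3)`, `R(y) = P(y)/P(v) = (D/(1+‖y‖²))^n`.
Facts: (a) `⟪v,X⟫ = ⟪w,X⟫` and `|⟪v,X⟫| ≤ t ‖v‖ ‖w‖` (Gram: `⟪v,X⟫ = ⟪v⊥,X⟫` with
`v⊥ = v - (⟪v,v-w⟫/r²)(v-w)` and `‖v⊥‖ r ≤ ‖v‖ ‖w‖`; if `v = w` then `X = 0`).
(b) `‖v ± X‖² = ‖v‖² + t² r² ± 2⟪v,X⟫`, so `R(v ± X) = (1 + A ± B)^(-n)`, `A = t² r²/D ≥ 0`,
`B = 2⟪v,X⟫/D`, `|B| ≤ 2 t ‖v‖ ‖w‖/D ≤ 2 t ‖w‖/√D`.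
(c) for every `n` there is `C_n` with `(a+B)^(-n) + (a-B)^(-n) ≤ 2 a^(-n) + C_n B²` for `a ≥ 1`,
`|B| ≤ 1/2` (put `b = B/a`, `(1+b)^(-n)+(1-b)^(-n) ≤ 2 + C b²` by induction on `n` together with
`|(1+b)^(-n)-(1-b)^(-n)| ≤ C |b|`).
(d) `chi` gives `R ≤ 4^n` on its support.
Case `Slow` (`‖v‖ ≥ 1`, `‖w‖ ≤ √D/16`): `|B| ≤ 1/8`; `r ≥ ‖v‖-‖w‖ ≥ (1/√2 - 1/16)√D`, so
`A ≥ t²/4` and `(1+A)^(-n) ≤ (1+t²/4)^(-4(d+3)) ≤ (1+t²)^(-(d+3))` (Bernoulli), so the first part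
is `≤ (1+t²)^(-1)`; the error is `≤ C B² ≤ C t² ‖w‖²/D`, and `(1+(r/L)²) t²‖w‖²/D ≤ C t²`
because `r² ≤ 2 D`, `‖w‖ ≤ L` (so `(r/L)²‖w‖²/D ≤ 2`), and `t² ≤ min(1,t²L²)`.
Case not `Slow`, `‖v‖ < 1` and `‖w‖ < 1`: `r ≤ 2`, `|B| ≤ 2t‖v‖‖w‖/D`; if `|B| ≤ 1/2` use (c), else
bounded by `4^n 2^(d+2)` and `t ≥ 1/4`.  Case not `Slow` otherwise: `r ≤ 17 L` (if `‖v‖ ≥ 1` then
`‖w‖ > √D/16 ≥ ‖v‖/16`; if `‖v‖ < 1 ≤ ‖w‖` trivial), so `1+(r/L)² ≤ 290` and it is enough to bound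
the left side minus `1` by `C min(1,t²L²)`: if `|B| ≤ 1/2` then `≤ ((1+t²)^(d+2) - 1) + C B²` with
`B² ≤ 4t²‖w‖² ≤ 4t²L²`; if `|B| > 1/2` then `t‖w‖ ≥ 1/4` and the left side is `≤ 4^n 2^(d+2)`. -/
def S_KEY1 : Prop := ∀ d : ℕ, ∃ C : ℝ, 0 ≤ C ∧ ∀ (V : Type) [NormedAddCommGroup V]
    [InnerProductSpace ℝ V] (v w X : V) (t : ℝ), 0 ≤ t → t ≤ 1 → ⟪X, v - w⟫ = 0 →
    ‖X‖ = t * ‖v - w‖ →
    (chi v (v + X) * P d (v + X) + chi v (v - X) * P d (v - X)) / 2 * (1 + t ^ 2) ^ (d + 2) ≤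
      P d v * ((if Slow v w then (1 + t ^ 2)⁻¹ else 1) + C * er t (1 + ‖w‖) ‖v - w‖)

open Classical in
/-- **KEY2** (pure algebra in an inner product space; checked numerically).
Notation of KEY1, now `t ≥ 1` and `4(1+‖w‖²) < D` (so `D > 4`, `‖v‖² > 3`, `‖w‖² < D/4`).
Identity (energy): `‖v ± X‖² + ‖w‖² = ‖v‖² + ‖w ± X‖²` (because `⟪X, v-w⟫ = 0`), so
`1 + ‖v ± X‖² ≥ D - ‖w‖² ≥ 3D/4`.
Case `Slow`: `‖v ± X‖² = ‖v‖² + t²r² ± 2⟪v,X⟫`, `|⟪v,X⟫| ≤ t‖v‖‖w‖ ≤ t D/16`, `r² ≥ 0.41 D`, so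
`(1+‖v±X‖²)/D ≥ 1 + 0.41 t² - t/8 ≥ 1 + t²/4` and `R ≤ (1+t²/4)^(-4(d+3)) ≤ (1+t²)^(-(d+3))`.
Case not `Slow`: `‖w‖ > √D/16`, `r ≤ 17 L`, so `er t⁻¹ L r ≥ t^(-2)/290`, and it is enough that
`R (1+t²)^(d+2) ≤ C t^(-2)`: for `t ≤ 6` by `R ≤ (4/3)^n`; for `t > 6`:
`‖v ± X‖ ≥ t r - ‖v‖ ≥ (0.366 t - 1) √D ≥ 0.19 t √D` (`r ≥ ‖v‖ - ‖w‖ ≥ (0.866 - 0.5)√D`), so
`R ≤ (1/(0.03 t²))^n` and `n = 4(d+3) ≥ d + 3`. -/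
def S_KEY2 : Prop := ∀ d : ℕ, ∃ C : ℝ, 0 ≤ C ∧ ∀ (V : Type) [NormedAddCommGroup V]
    [InnerProductSpace ℝ V] (v w X : V) (t : ℝ), 1 ≤ t → ⟪X, v - w⟫ = 0 →
    ‖X‖ = t * ‖v - w‖ → 4 * (1 + ‖w‖ ^ 2) < 1 + ‖v‖ ^ 2 →
    (P d (v + X) + P d (v - X)) / 2 * (1 + t ^ 2) ^ (d + 2) ≤
      P d v * ((if Slow v w then (1 + t ^ 2)⁻¹ else 0) + C * er t⁻¹ (1 + ‖w‖) ‖v - w‖)

/-- **ZON**, the zonal formula on the unit sphere (`κ = |S^(d-2)|`; for `d = 2`, `κ = 2`).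
Proof: with a radial weight, `∫⁻ z, ofReal(exp(-‖z‖²)) h(⟪e,z⟫/‖z‖)` equals
`(∫⁻ r>0, r^(d-1) exp(-r²)) * ∫⁻ σ, h ⟪e,σ⟫ ∂surf` (polar coordinates:
`Measure.measurePreserving_homeomorphUnitSphereProd`), and by a linear isometry taking `e` to the
first basis vector, `E d ≃ ℝ × E (d-1)` and polar coordinates in `E (d-1)` (radial function) it is
`c * ∫⁻ x, ∫⁻ ρ>0, ρ^(d-2) exp(-x²-ρ²) h(x/√(x²+ρ²))`, then polar coordinates of the plane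
(`lintegral_comp_polarCoord_symm`) and `x = cos θ`.  For `d = 2`, `E 1` is the line. -/
def S_ZON : Prop := ∀ d : ℕ, 2 ≤ d → ∃ κ : ℝ≥0∞, κ ≠ 0 ∧ κ ≠ ∞ ∧ ∀ e : E d, ‖e‖ = 1 →
    ∀ h : ℝ → ℝ≥0∞, Measurable h →
    ∫⁻ σ : S d, h ⟪e, (σ : E d)⟫ ∂surf d =
      κ * ∫⁻ x in Ioo (-1 : ℝ) 1, ENNReal.ofReal ((1 - x ^ 2) ^ (((d : ℝ) - 3) / 2)) * h x

/-- **DBL**, doubling of the polar angle.  Proof from `S_ZON` (take it as hypothesis: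
`theorem DBL (hz : S_ZON) : S_DBL`): apply the zonal formula on both sides and substitute
`x = 2c² - 1`, `c ∈ (0,1)` (`dx = 4c dc`, `1 - x² = 4c²(1-c²)`), e.g. with
`lintegral_image_eq_lintegral_abs_deriv_mul`. -/
def S_DBL : Prop := ∀ d : ℕ, 2 ≤ d → ∀ e : E d, ‖e‖ = 1 → ∀ h : ℝ → ℝ≥0∞, Measurable h →
    ∫⁻ σ : S d, h ⟪e, (σ : E d)⟫ ∂surf d =
      ∫⁻ σ : S d, (if 0 < ⟪e, (σ : E d)⟫ then
        ENNReal.ofReal (2 ^ (d - 1) * ⟪e, (σ : E d)⟫ ^ (d - 2)) *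
          h (2 * ⟪e, (σ : E d)⟫ ^ 2 - 1) else 0) ∂surf d

/-- **ERR**.  Proof from `S_ZON` (`theorem ERR (hz : S_ZON) : S_ERR`): the integral is
`κ ∫_{-1}^1 (1-x²)^((d-3)/2) ((1-|x|)/2)^(-(d-1)/2-s) min(1,(1-|x|)L²) dx`; with `y = 1-|x|`,
`1-x² = y(2-y)` lies between `y` and `2y`, so it is `≤ C ∫_0^1 y^(-1-s) min(1, y L²) dy`
`≤ C (∫_0^{L^(-2)} y^(-s) L² dy + ∫_{L^(-2)}^∞ y^(-1-s) dy) = C (1/(1-s) + 1/s) L^(2s)`. -/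
def S_ERR : Prop := ∀ d : ℕ, 2 ≤ d → ∀ s : ℝ, 0 < s → s < 1 → ∃ C : ℝ, 0 ≤ C ∧
    ∀ e : E d, ‖e‖ = 1 → ∀ L : ℝ, 1 ≤ L →
    ∫⁻ σ : S d, ENNReal.ofReal (((1 - |⟪e, (σ : E d)⟫|) / 2) ^ (-(((d : ℝ) - 1) / 2 + s)) *
      min 1 ((1 - |⟪e, (σ : E d)⟫|) * L ^ 2)) ∂surf d ≤ ENNReal.ofReal (C * L ^ (2 * s))

/-- **NUL**: great spheres are null sets.  (From `S_ZON` with `h = indicator {0}`, or directly from
`Measure.toSphere_apply'` and `Measure.addHaar_submodule`.) -/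
def S_NUL : Prop := ∀ d : ℕ, 2 ≤ d → ∀ e : E d, e ≠ 0 →
    surf d {σ : S d | ⟪e, (σ : E d)⟫ = 0} = 0

/-- **ROT**: the surface measure is invariant under linear isometries (the library has it:
`Pool.Graph.R_pool_sql_team_seeded_3997aac3.Q93.KF3`, `surf_rot`). -/
def S_ROT : Prop := ∀ (d : ℕ) (R : E d ≃ₗᵢ[ℝ] E d) (h : S d → ℝ≥0∞), Measurable h →
    ∫⁻ σ : S d, h ⟨R σ, by simp⟩ ∂surf d = ∫⁻ σ : S d, h σ ∂surf d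

/-- **CV**: the change of variables `y = (z + ‖z‖ σ)/2` for fixed `σ`.  It is a bijection of
`{z | z ≠ -‖z‖ σ}` (complement of a ray, null since `d ≥ 2`) onto `{y | 0 < ⟪y,σ⟫}` with inverse
`y ↦ 2y - (‖y‖²/⟪y,σ⟫) σ`, derivative of `z ↦ y`: `(I + σ ⊗ z/‖z‖)/2`, determinant
`2^(-d) (1 + ⟪z,σ⟫/‖z‖) = 2^(1-d) ⟪y,σ⟫²/‖y‖²`; (derivative of the inverse: `2 I - σ ⊗ ∇h`,
`h = ‖y‖²/⟪y,σ⟫`, determinant `2^d (1 - ⟪σ,∇h⟫/2) = 2^(d-1) ‖y‖²/⟪y,σ⟫²`).  Use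
`lintegral_image_eq_lintegral_abs_det_fderiv_mul` for the inverse map on the open half space and
`LinearMap.det_one_add_...`/`Matrix.det_one_add_replicateCol_mul_replicateRow` (rank one). -/
def S_CV : Prop := ∀ d : ℕ, 2 ≤ d → ∀ σ : E d, ‖σ‖ = 1 → ∀ G : E d → ℝ≥0∞, Measurable G →
    ∫⁻ z, G z = ∫⁻ y, if 0 < ⟪y, σ⟫ then
      ENNReal.ofReal (2 ^ (d - 1) * ‖y‖ ^ 2 / ⟪y, σ⟫ ^ 2) *
        G ((2 : ℝ) • y - (‖y‖ ^ 2 / ⟪y, σ⟫) • σ) else 0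

/-- the perpendicular vector: `v' - v = (‖y‖²/⟪y,σ⟫) σ - y` -/
noncomputable def Xv {d : ℕ} (y σ : E d) : E d := (‖y‖ ^ 2 / ⟪y, σ⟫) • σ - y

/-- the angular profile of the folded gain term -/
noncomputable def prof {d : ℕ} (f : E d → ℝ) (v w σ : E d) : ℝ :=
  f (v + Xv (v - w) σ) * ((if 1 < 2 * cosa (v - w) σ ^ 2 then chi v (v + Xv (v - w) σ) else 0) +
    (if 2 * cosa (v - w) σ ^ 2 < 1 then 1 - chi v w else 0))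

/-- **G1** (folding; uses `S_NUL`, `S_ROT` for `-1`): put `x = cosa (v-w) σ`, `A = f(v'_*) f(v')
‖v-w‖^γ`, `v' = post v w σ`, `v'_* = post v w (-σ)`.  Split `b(x) A` into `x > 0` / `x < 0`
(`x = 0` is null) and `chi v v'` / `1 - chi v v'` for `x > 0`, `chi v v'_*` / `1 - chi v v'_*` for
`x < 0`; in the parts (`x > 0`, `1 - chi v v'`) and (`x < 0`, `chi v v'_*`) substitute `σ → -σ`
(which exchanges `v'` and `v'_*` and changes the sign of `x`). -/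
def S_G1 : Prop := ∀ d : ℕ, 2 ≤ d → ∀ γ : ℝ, ∀ b : ℝ → ℝ, Measurable b → (∀ x, 0 ≤ b x) →
    ∀ f : E d → ℝ, Measurable f → (∀ y, 0 ≤ f y) → ∀ v : E d,
    ∫⁻ p : E d × S d, ENNReal.ofReal (f (post v p.1 (-(p.2 : E d))) * f (post v p.1 p.2) *
        (‖v - p.1‖ ^ γ * b (cosa (v - p.1) p.2))) ∂(volume.prod (surf d)) =
    ∫⁻ p : E d × S d, ENNReal.ofReal (f (post v p.1 (-(p.2 : E d))) * f (post v p.1 p.2) *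
        (‖v - p.1‖ ^ γ * (b (cosa (v - p.1) p.2) + b (-cosa (v - p.1) p.2))) *
        ((if 0 < cosa (v - p.1) p.2 then chi v (post v p.1 p.2) else 0) +
         (if cosa (v - p.1) p.2 < 0 then 1 - chi v (post v p.1 (-(p.2 : E d))) else 0)))
      ∂(volume.prod (surf d))

/-- **G2** (change of variables; uses `S_CV`): right side of `S_G1` = the integral below.
Tonelli, for fixed `σ` substitute `z = v - p.1`, then `S_CV` with `y`, then `w = v - y`.  With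
`c = ⟪y,σ⟫/‖y‖ = cosa y σ > 0` and `z = 2y - (‖y‖/c) σ`: `‖z‖ = ‖y‖/c`, `(z + ‖z‖σ)/2 = y`, so
`v'_* = v - y = w`, `v' = v + Xv y σ`, `cosa z σ = 2c² - 1`, and the weight is
`2^(d-1) c^(-2) ‖z‖^γ = 2^(d-1) c^(d-2) c^(-(d+γ)) ‖y‖^γ`. -/
def S_G2 : Prop := ∀ d : ℕ, 2 ≤ d → ∀ γ : ℝ, 0 ≤ γ → ∀ b : ℝ → ℝ, Measurable b →
    (∀ x, 0 ≤ b x) → ∀ f : E d → ℝ, Measurable f → (∀ y, 0 ≤ f y) → ∀ v : E d,
    ∫⁻ p : E d × S d, ENNReal.ofReal (f (post v p.1 (-(p.2 : E d))) * f (post v p.1 p.2) *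
        (‖v - p.1‖ ^ γ * (b (cosa (v - p.1) p.2) + b (-cosa (v - p.1) p.2))) *
        ((if 0 < cosa (v - p.1) p.2 then chi v (post v p.1 p.2) else 0) +
         (if cosa (v - p.1) p.2 < 0 then 1 - chi v (post v p.1 (-(p.2 : E d))) else 0)))
      ∂(volume.prod (surf d)) =
    ∫⁻ w : E d, ENNReal.ofReal (f w * ‖v - w‖ ^ γ) * ∫⁻ σ : S d,
      (if 0 < cosa (v - w) σ then ENNReal.ofReal (2 ^ (d - 1) * cosa (v - w) σ ^ (d - 2) *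
        (b (2 * cosa (v - w) σ ^ 2 - 1) + b (1 - 2 * cosa (v - w) σ ^ 2)) *
        (cosa (v - w) σ ^ (-((d : ℝ) + γ)) * prof f v w σ)) else 0) ∂surf d

open Classical in
/-- the bound of the profile, a function of `x = 2c² - 1` -/
noncomputable def bnd {d : ℕ} (C : ℝ) (v w : E d) (x : ℝ) : ℝ :=
  (if Slow v w then (1 + x) / 2 else if 0 < x then 1 else 0) +
    C * (min 1 ((1 - |x|) * (1 + ‖w‖) ^ 2) / (1 + (‖v - w‖ / (1 + ‖w‖)) ^ 2))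

/-- **G3** (mirror average and KEY1, KEY2; `theorem G3 (h1 : S_KEY1) (h2 : S_KEY2) (hr : S_ROT) :
S_G3`): fix `w ≠ v`, `y = v - w`.  The mirror image `σ → mir y σ` (a linear isometry, minus the
reflection in `y^⊥`) preserves `surf`, `c = cosa y σ`, and changes `Xv y σ` into `-Xv y σ`; so the
integral is that of the average.  `⟪Xv y σ, y⟫ = 0`, `‖Xv y σ‖ = t ‖y‖` with `t = √(1-c²)/c`,
`1 + t² = c^(-2)`.  `f ≤ N P`.  If `2c² > 1` then `t < 1`: KEY1; if `2c² < 1` then `t > 1`, and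
either `chi v w = 1` (the term is 0) or KEY2 applies.  `c^(-(d+γ)) ≤ (1+t²)^(d+2)`,
`(1+t²)^(-1) = c² = (1+x)/2`, `t² = (1-x)/(1+x) ≤ 1-|x|` resp. `t^(-2) = (1+x)/(1-x) ≤ 1-|x|`. -/
def S_G3 : Prop := ∀ d : ℕ, 2 ≤ d → ∃ C : ℝ, 0 ≤ C ∧ ∀ γ : ℝ, 0 ≤ γ → γ ≤ 2 →
    ∀ b : ℝ → ℝ, Measurable b → (∀ x, 0 ≤ b x) →
    ∀ f : E d → ℝ, Measurable f → (∀ y, 0 ≤ f y) → ∀ N : ℝ, (∀ y, f y ≤ N * P d y) →
    ∀ v w : E d, v ≠ w →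
    ∫⁻ σ : S d,
      (if 0 < cosa (v - w) σ then ENNReal.ofReal (2 ^ (d - 1) * cosa (v - w) σ ^ (d - 2) *
        (b (2 * cosa (v - w) σ ^ 2 - 1) + b (1 - 2 * cosa (v - w) σ ^ 2)) *
        (cosa (v - w) σ ^ (-((d : ℝ) + γ)) * prof f v w σ)) else 0) ∂surf d ≤
    ENNReal.ofReal (N * P d v) * ∫⁻ σ : S d,
      (if 0 < cosa (v - w) σ then ENNReal.ofReal (2 ^ (d - 1) * cosa (v - w) σ ^ (d - 2) *
        (b (2 * cosa (v - w) σ ^ 2 - 1) + b (1 - 2 * cosa (v - w) σ ^ 2)) *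
        bnd C v w (2 * cosa (v - w) σ ^ 2 - 1)) else 0) ∂surf d

/-- **G4** (`theorem G4 (hd : S_DBL) (hr : S_ROT) : S_G4`): by DBL with
`h(x) = ofReal((b(x)+b(-x)) bnd C v w x)` (`e = (v-w)/‖v-w‖`) the left side is
`∫ (b(x)+b(-x)) bnd(x) = ∫ b(x) (bnd(x) + bnd(-x))` (use `σ → -σ`), and
`bnd(x) + bnd(-x) ≤ 1 + 2C er`. -/
def S_G4 : Prop := ∀ d : ℕ, 2 ≤ d → ∀ C : ℝ, 0 ≤ C →
    ∀ b : ℝ → ℝ, Measurable b → (∀ x, 0 ≤ b x) → ∀ v w : E d, v ≠ w →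
    ∫⁻ σ : S d,
      (if 0 < cosa (v - w) σ then ENNReal.ofReal (2 ^ (d - 1) * cosa (v - w) σ ^ (d - 2) *
        (b (2 * cosa (v - w) σ ^ 2 - 1) + b (1 - 2 * cosa (v - w) σ ^ 2)) *
        bnd C v w (2 * cosa (v - w) σ ^ 2 - 1)) else 0) ∂surf d ≤
    ∫⁻ σ : S d, ENNReal.ofReal (b (cosa (v - w) σ) * (1 + 2 * C * (
      min 1 ((1 - |cosa (v - w) σ|) * (1 + ‖w‖) ^ 2) / (1 + (‖v - w‖ / (1 + ‖w‖)) ^ 2)))) ∂surf d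

/-- **GAIN** (assembly of G1 - G4, done by helper43) -/
def S_GAIN : Prop := ∀ d : ℕ, 2 ≤ d → ∃ C : ℝ, 0 ≤ C ∧ ∀ (γ : ℝ), 0 ≤ γ → γ ≤ 2 →
    ∀ b : ℝ → ℝ, Measurable b → (∀ x, 0 ≤ b x) →
    ∀ f : E d → ℝ, Measurable f → (∀ y, 0 ≤ f y) → ∀ N : ℝ, (∀ y, f y ≤ N * P d y) →
    ∀ v : E d,
    ∫⁻ p : E d × S d, ENNReal.ofReal (f (post v p.1 (-(p.2 : E d))) * f (post v p.1 p.2) *
        (‖v - p.1‖ ^ γ * b (cosa (v - p.1) p.2))) ∂(volume.prod (surf d)) ≤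
      ENNReal.ofReal (N * P d v) * ∫⁻ w : E d, ENNReal.ofReal (f w * ‖v - w‖ ^ γ) *
        ∫⁻ σ : S d, ENNReal.ofReal (b (cosa (v - w) σ) * (1 + C * (
          min 1 ((1 - |cosa (v - w) σ|) * (1 + ‖w‖) ^ 2) /
            (1 + (‖v - w‖ / (1 + ‖w‖)) ^ 2)))) ∂surf d

/-- **QLE** (from GAIN, ERR, ROT; done by helper43): the contact inequality. -/
def S_QLE : Prop := ∀ d : ℕ, 2 ≤ d → ∀ s γ K : ℝ, 0 < s → s < 1 → 0 ≤ γ → γ + 2 * s ≤ 2 →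
    0 ≤ K → ∃ C : ℝ, 0 ≤ C ∧ ∀ b : ℝ → ℝ, Ker d s K b →
    ∀ f : E d → ℝ, Measurable f → (∀ y, 0 ≤ f y) → ∀ N : ℝ, (∀ y, f y ≤ N * P d y) →
    ∀ v : E d, f v = N * P d v → Integrable (J γ b f v) (volume.prod (surf d)) →
    Integrable (fun w => f w * (1 + ‖w‖) ^ (γ + 2 * s)) →
    Q γ b f v ≤ C * (N * P d v) * ∫ w, f w * (1 + ‖w‖) ^ (γ + 2 * s)

/-- **CON**: the first contact argument along characteristics.  Fix `T' < T`, `ε > 0`, and put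
`A(t) = (N+ε) exp(∫_0^t m + ε t)`.  Let `B = {t ∈ [0,T'] | ∃ x v, A(t) W(v) ≤ f t x v}`.  By
periodicity `x` may be taken in the cube `[0,1]^d` (subtract `⌊x i⌋`, induction over the integers),
by decay `v` in a ball; so `B` is the projection of a compact set, it has a least element `t₀` if it
is nonempty, `t₀ > 0` because `f 0 ≤ N W < A(0) W`.  At `t₀`: `f ≤ A(t₀) W` everywhere (limit of
`t < t₀`) with equality at some `(x,v)`.  Then `g(τ) = f(t₀+τ)(x+τv)v - A(t₀+τ)W(v)` is `≤ 0` for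
`τ < 0` small and `g(0) = 0`, so `0 ≤ g'(0) = D - (m(t₀)+ε) A(t₀) W(v)`, a contradiction with
`D ≤ m A W`.  Finally `ε → 0`. -/
def S_CON : Prop := ∀ (d : ℕ) (T : ℝ) (f : ℝ → E d → E d → ℝ) (D : ℝ → E d → E d → ℝ)
    (W : E d → ℝ) (m : ℝ → ℝ) (N : ℝ), 0 < T → 0 ≤ N →
    (∀ v, 0 < W v) → Continuous W →
    ContinuousOn (fun p : ℝ × E d × E d => f p.1 p.2.1 p.2.2) (Ico 0 T ×ˢ univ) →
    (∀ t ∈ Ico 0 T, ∀ x v, ∀ i, f t (x + EuclideanSpace.single i 1) v = f t x v) →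
    (∀ T' ∈ Ico 0 T, ∀ ε > 0, ∃ R : ℝ, ∀ t ∈ Icc 0 T', ∀ x v, R ≤ ‖v‖ → f t x v ≤ ε * W v) →
    (∀ t ∈ Ioo 0 T, ∀ x v, HasDerivAt (fun τ : ℝ => f (t + τ) (x + τ • v) v) (D t x v) 0) →
    ContinuousOn m (Ico 0 T) → (∀ t ∈ Ico 0 T, 0 ≤ m t) →
    (∀ t ∈ Ioo 0 T, ∀ x v, ∀ A : ℝ, 0 < A → (∀ y, f t x y ≤ A * W y) → f t x v = A * W v →
      D t x v ≤ m t * (A * W v)) →
    (∀ x v, f 0 x v ≤ N * W v) →
    ∀ t ∈ Ico 0 T, ∀ x v, f t x v ≤ N * Real.exp (∫ τ in (0:ℝ)..t, m τ) * W v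

/-- **SUP**: continuity in time of the supremum over the torus of a velocity moment.  For `T' < T`
the map `(t,x) ↦ ∫ f t x v (1+‖v‖)^p` is continuous on `[0,T'] × E d` (dominated convergence with
the decay for `q ≥ p + d + 1`), the supremum over `x` is that over the compact cube (periodicity),
and the supremum of a jointly continuous function over a compact set is continuous
(`IsCompact.continuous_sSup`). -/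
def S_SUP : Prop := ∀ (d : ℕ) (T p : ℝ) (f : ℝ → E d → E d → ℝ), 0 < T → 0 ≤ p →
    (∀ t ∈ Ico 0 T, ∀ x v, 0 ≤ f t x v) →
    ContinuousOn (fun p : ℝ × E d × E d => f p.1 p.2.1 p.2.2) (Ico 0 T ×ˢ univ) →
    (∀ t ∈ Ico 0 T, ∀ x v, ∀ i, f t (x + EuclideanSpace.single i 1) v = f t x v) →
    (∀ T' ∈ Ico 0 T, ∀ q : ℕ, ∃ C : ℝ, ∀ t ∈ Icc 0 T', ∀ x v, (1 + ‖v‖) ^ q * f t x v ≤ C) →
    ContinuousOn (fun t => ⨆ x, ∫ v, f t x v * (1 + ‖v‖) ^ p) (Ico 0 T) ∧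
    (∀ t ∈ Ico 0 T, BddAbove (range fun x => ∫ v, f t x v * (1 + ‖v‖) ^ p)) ∧
    (∀ t ∈ Ico 0 T, ∀ x, Integrable fun v => f t x v * (1 + ‖v‖) ^ p)

/-- classical solutions on `[0,T)`, periodic in `x`, rapidly decaying in `v` locally uniformly in
time, for which the collision integral converges absolutely -/
structure Sol (d : ℕ) (γ : ℝ) (b : ℝ → ℝ) (T : ℝ) (f : ℝ → E d → E d → ℝ) : Prop where
  nonneg : ∀ t ∈ Ico 0 T, ∀ x v, 0 ≤ f t x v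
  cont : ContinuousOn (fun p : ℝ × E d × E d => f p.1 p.2.1 p.2.2) (Ico 0 T ×ˢ univ)
  periodic : ∀ t ∈ Ico 0 T, ∀ x v, ∀ i, f t (x + EuclideanSpace.single i 1) v = f t x v
  decay : ∀ T' ∈ Ico 0 T, ∀ q : ℕ, ∃ C : ℝ, ∀ t ∈ Icc 0 T', ∀ x v, (1 + ‖v‖) ^ q * f t x v ≤ C
  diff : ∀ t ∈ Ioo 0 T, ∀ x v, DifferentiableAt ℝ (fun p : ℝ × E d => f p.1 p.2 v) (t, x)
  conv : ∀ t ∈ Ioo 0 T, ∀ x v, Integrable (J γ b (f t x) v) (volume.prod (surf d))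
  eqn : ∀ t ∈ Ioo 0 T, ∀ x v,
    fderiv ℝ (fun p : ℝ × E d => f p.1 p.2 v) (t, x) (1, v) = Q γ b (f t x) v

/-- **FIN** (`theorem FIN (hc : S_CON) (hq : S_QLE) (hs : S_SUP) : S_FIN`): apply CON with
`W = P d`, `D = Q γ b (f t x) v`, `m = C * sup`. -/
def S_FIN : Prop := ∀ d : ℕ, 2 ≤ d → ∀ s γ K : ℝ, 0 < s → s < 1 → 0 ≤ γ → γ + 2 * s ≤ 2 →
    0 ≤ K → ∃ C : ℝ, 0 ≤ C ∧ ∀ b : ℝ → ℝ, Ker d s K b → ∀ (T : ℝ) (f : ℝ → E d → E d → ℝ),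
    0 < T → Sol d γ b T f → ∀ N : ℝ, (∀ x v, f 0 x v ≤ N * P d v) →
    ∀ t ∈ Ico 0 T, ∀ x v, f t x v ≤ N * Real.exp (C * ∫ τ in (0:ℝ)..t,
      ⨆ y, ∫ w, f τ y w * (1 + ‖w‖) ^ (γ + 2 * s)) * P d v

/-- **HYD** (`theorem HYD (hf : S_FIN) (hs : S_SUP) : S_HYD`): if the supremum of the moment is
integrable in time then mass, energy and entropy densities stay bounded: `f ≤ N' P` on `[0,T)`,
`∫ P < ∞`, `∫ ‖v‖² P < ∞` (`8(d+3) > d + 2`), `f log f ≤ f log⁺ N'`. -/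
def S_HYD : Prop := ∀ d : ℕ, 2 ≤ d → ∀ s γ K : ℝ, 0 < s → s < 1 → 0 ≤ γ → γ + 2 * s ≤ 2 →
    0 ≤ K → ∀ b : ℝ → ℝ, Ker d s K b → ∀ (T : ℝ) (f : ℝ → E d → E d → ℝ),
    0 < T → Sol d γ b T f →
    IntegrableOn (fun t => ⨆ y, ∫ w, f t y w * (1 + ‖w‖) ^ (γ + 2 * s)) (Ico 0 T) →
    ∃ B : ℝ, ∀ t ∈ Ico 0 T, ∀ x, ∫ v, f t x v ≤ B ∧ ∫ v, f t x v * ‖v‖ ^ 2 ≤ B ∧
      ∫ v, f t x v * Real.log (f t x v) ≤ B

end Pool.Agent.H43.BZ
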