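import Pool.Agent.H43.BZ.Stm2

/-!
# Interface, third part: the Landau equation, `-2 < γ < 0`
-/

set_option autoImplicit false

open MeasureTheory Metric Set Filter Topology
open scoped RealInnerProductSpace ENNReal

namespace Pool.Agent.H43.BZ

/-- the Landau matrix applied to a vector: `a(z) ξ = |z|^γ (|z|² ξ - (z·ξ) z)` -/
noncomputable def aL {d : ℕ} (γ : ℝ) (z ξ : E d) : E d :=
  ‖z‖ ^ γ • (‖z‖ ^ 2 • ξ - ⟪z, ξ⟫ • z)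

/-- the flux `∫ a(v - w) (g(w) ∇g(v) - g(v) ∇g(w)) dw` -/
noncomputable def fluxL {d : ℕ} (γ : ℝ) (g : E d → ℝ) (v : E d) : E d :=
  ∫ w, aL γ (v - w) (g w • gradient g v - g v • gradient g w)

/-- the Landau operator `Q(g,g)(v) = div_v ∫ a(v - w) (g(w) ∇g(v) - g(v) ∇g(w)) dw` -/
noncomputable def QL {d : ℕ} (γ : ℝ) (g : E d → ℝ) (v : E d) : ℝ :=
  ∑ i : Fin d, ⟪fderiv ℝ (fluxL γ g) v (EuclideanSpace.single i 1), EuclideanSpace.single i (1 : ℝ)⟫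

/-- second derivative `D²g(v)(h,h)` -/
noncomputable def d2 {d : ℕ} (g : E d → ℝ) (v h : E d) : ℝ := fderiv ℝ (fderiv ℝ g) v h h

/-- `Σ a_ij(z) ∂_ij g(v) = |z|^γ (|z|² Δg(v) - D²g(v)(z,z))` -/
noncomputable def aHess {d : ℕ} (γ : ℝ) (g : E d → ℝ) (v z : E d) : ℝ :=
  ‖z‖ ^ γ * (‖z‖ ^ 2 * ∑ i : Fin d, d2 g v (EuclideanSpace.single i 1) - d2 g v z)

/-- rapid decay with two derivatives -/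
def Rap {d : ℕ} (g : E d → ℝ) : Prop := ContDiff ℝ 2 g ∧ ∀ q : ℕ, ∃ C : ℝ, ∀ v,
  (1 + ‖v‖) ^ q * |g v| ≤ C ∧ (1 + ‖v‖) ^ q * ‖fderiv ℝ g v‖ ≤ C ∧
  (1 + ‖v‖) ^ q * ‖fderiv ℝ (fderiv ℝ g) v‖ ≤ C

/-- **LND**: nondivergence form of the Landau operator.
`fluxL = Ā(v)∇g(v) - g(v) B(v)` with `Ā(v)ξ = ∫ aL γ z ξ · g(v-z) dz`,
`B(v) = ∫ aL γ z (∇g(v-z)) dz` (`w = v - z`).  The kernel `|aL γ z ξ| ≤ |z|^(γ+2) |ξ|` is fixed, so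
differentiate under the integral (`hasFDerivAt_integral_of_dominated_of_fderiv_le`; decay of `g`,
`∇g`, `D²g`).  In the divergence the two terms with one derivative on each factor cancel
(`a` symmetric), so `QL = Σ_ij Ā_ij ∂_ij g - g div B`, `div B(v) = ∫ Σ_ij a_ij(z) (∂_ij g)(v-z) dz`.
Integration by parts: `∫ Σ_ij a_ij(z) ∂_ij h(z) dz = -(d-1)(d+γ) ∫ |z|^γ h(z) dz`, `h(z) = g(v-z)`:
regularise `|z|^γ` by `ρ_ε(z) = (|z|²+ε)^(γ/2)`; `Σ_i ∂_i[(|z|²δ_ij - z_i z_j) ρ_ε] =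
-(d-1) z_j ρ_ε` (the matrix kills `z`, hence the gradient of the radial function), then
`Σ_j ∂_j (z_j ρ_ε) = d ρ_ε + γ |z|² (|z|²+ε)^(γ/2-1)`; use
`integral_mul_fderiv_eq_neg_fderiv_mul_of_integrable` twice and let `ε → 0` by dominated
convergence (`ρ_ε ≤ |z|^γ`, integrable near `0` because `γ > -2 ≥ -d`). -/
def S_LND : Prop := ∀ d : ℕ, 2 ≤ d → ∀ γ : ℝ, -2 < γ → γ < 0 → ∀ g : E d → ℝ, Rap g → ∀ v : E d,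
    QL γ g v = (∫ w, g w * aHess γ g v (v - w)) +
      ((d : ℝ) - 1) * (d + γ) * g v * ∫ w, g w * ‖v - w‖ ^ γ

/-- **LHES**: at a contact point the second derivatives are ordered, and `aHess` is monotone.
`φ = g - N P ≤ 0` with `φ(v) = 0` and `φ` is `C²`, so `d2 φ v h ≤ 0` for all `h` (one-dimensional
second derivative test for `t ↦ φ(v+th)`); for a symmetric form `S ≥ 0`,
`S(z,z) ≤ |z|² Σ_i S(e_i,e_i)` (Cauchy-Schwarz for `S`: `S(z,z) = Σ z_i S(e_i,z) ≤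
Σ |z_i| √S(e_i,e_i) √S(z,z)`). -/
def S_LHES : Prop := ∀ d : ℕ, 2 ≤ d → ∀ γ : ℝ, ∀ g h : E d → ℝ, ContDiff ℝ 2 g → ContDiff ℝ 2 h →
    ∀ v : E d, (∀ y, g y ≤ h y) → g v = h v → ∀ z : E d, aHess γ g v z ≤ aHess γ h v z

/-- **LP**: `D²P(v)(h,h) = P(v) (-2n|h|²/D + 4n(n+1) ⟪v,h⟫²/D²)`, `n = 4(d+3)`, `D = 1+‖v‖²`, hence
`aHess γ (N P) v z = N P(v) |z|^γ (-2n(d-1)|z|²/D + 4n(n+1) (|z|²‖v‖² - ⟪v,z⟫²)/D²)`. -/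
def S_LP : Prop := ∀ d : ℕ, 2 ≤ d → ∀ γ N : ℝ, ContDiff ℝ 2 (fun y : E d => N * P d y) ∧
    ∀ v z : E d, aHess γ (fun y => N * P d y) v z = N * P d v * (‖z‖ ^ γ *
      (-(2 * (4 * ((d : ℝ) + 3)) * (d - 1) * ‖z‖ ^ 2 / (1 + ‖v‖ ^ 2)) +
        4 * (4 * ((d : ℝ) + 3)) * (4 * ((d : ℝ) + 3) + 1) *
          (‖z‖ ^ 2 * ‖v‖ ^ 2 - ⟪v, z⟫ ^ 2) / (1 + ‖v‖ ^ 2) ^ 2))

/-- **LKEY** (pure algebra): `|z|²‖v‖² - ⟪v,z⟫² ≤ ‖v‖²‖w‖²` for `z = v - w`.  Slow case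
(`‖v‖ ≥ 1`, `256‖w‖² ≤ D`): `r² ≥ 0.41 D`, so the first term and the last one have a negative sum
(`0.82 · 4(d+3) ≥ d + γ`); the middle one is `≤ C ‖w‖²/D` and `(‖w‖²/D)(1+(r/L)²) ≤ 3` as `r² ≤ 2D`.
Otherwise `r ≤ 17 L` (or `r ≤ 2` if `‖v‖ < 1`, `‖w‖ < 1`), the left side is `≤ C (1 + ‖w‖²)`. -/
def S_LKEY : Prop := ∀ d : ℕ, 2 ≤ d → ∃ C : ℝ, 0 ≤ C ∧ ∀ γ : ℝ, γ < 0 → ∀ v w : E d,
    -(2 * (4 * ((d : ℝ) + 3)) * (d - 1) * ‖v - w‖ ^ 2 / (1 + ‖v‖ ^ 2)) +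
        4 * (4 * ((d : ℝ) + 3)) * (4 * ((d : ℝ) + 3) + 1) *
          (‖v - w‖ ^ 2 * ‖v‖ ^ 2 - ⟪v, v - w⟫ ^ 2) / (1 + ‖v‖ ^ 2) ^ 2 + ((d : ℝ) - 1) * (d + γ) ≤
      C * ((1 + ‖w‖) ^ 2 / (1 + (‖v - w‖ / (1 + ‖w‖)) ^ 2))

/-- **LQLE** (`theorem LQLE (h1 : S_LND) (h2 : S_LHES) (h3 : S_LP) (h4 : S_LKEY) (h5 : S_KKI1) :
S_LQLE`): contact inequality.  All integrals converge because `g` is bounded, decays, and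
`γ > -2 ≥ -d` (KKI1). -/
def S_LQLE : Prop := ∀ d : ℕ, 2 ≤ d → ∃ C : ℝ, 0 ≤ C ∧ ∀ γ : ℝ, -2 < γ → γ < 0 →
    ∀ g : E d → ℝ, Rap g → (∀ y, 0 ≤ g y) → ∀ N : ℝ, (∀ y, g y ≤ N * P d y) →
    ∀ v : E d, g v = N * P d v → QL γ g v ≤ C * (N * P d v) * ∫ w, g w * kk γ 1 v w

/-- **KKI1**: as KKI, for `s = 1`, `-2 < γ < 0`. -/
def S_KKI1 : Prop := ∀ d : ℕ, 2 ≤ d → ∀ γ : ℝ, -2 < γ → γ < 0 →
    ∃ C : ℝ, ∀ v : E d, Integrable (fun w : E d => kk γ 1 v w * ((1 + ‖w‖) ^ (d + 7))⁻¹) ∧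
      ∫ w, kk γ 1 v w * ((1 + ‖w‖) ^ (d + 7))⁻¹ ≤ C ∧
      Integrable (fun w : E d => (‖v - w‖ ^ γ * (1 + ‖w‖) ^ (2 : ℝ)) * ((1 + ‖w‖) ^ (d + 5))⁻¹)

/-- classical solutions of the Landau equation on `[0,T)`, periodic in `x`, rapidly decaying in `v`
locally uniformly in time, twice differentiable in `v` with rapidly decaying derivatives -/
structure SolL (d : ℕ) (γ : ℝ) (T : ℝ) (f : ℝ → E d → E d → ℝ) : Prop where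
  nonneg : ∀ t ∈ Ico 0 T, ∀ x v, 0 ≤ f t x v
  cont : ContinuousOn (fun p : ℝ × E d × E d => f p.1 p.2.1 p.2.2) (Ico 0 T ×ˢ univ)
  periodic : ∀ t ∈ Ico 0 T, ∀ x v, ∀ i, f t (x + EuclideanSpace.single i 1) v = f t x v
  decay : ∀ T' ∈ Ico 0 T, ∀ q : ℕ, ∃ C : ℝ, ∀ t ∈ Icc 0 T', ∀ x v, (1 + ‖v‖) ^ q * f t x v ≤ C
  diff : ∀ t ∈ Ioo 0 T, ∀ x v, DifferentiableAt ℝ (fun p : ℝ × E d => f p.1 p.2 v) (t, x)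
  smooth : ∀ t ∈ Ioo 0 T, ∀ x, Rap (f t x)
  eqn : ∀ t ∈ Ioo 0 T, ∀ x v,
    fderiv ℝ (fun p : ℝ × E d => f p.1 p.2 v) (t, x) (1, v) = QL γ (f t x) v

/-- **LFIN** (`theorem LFIN (hc : S_CON) (hq : S_LQLE) (hs : S_SUPn) (hk : S_KKI1) : S_LFIN`): as
FINn, with `kk γ 1`. -/
def S_LFIN : Prop := ∀ d : ℕ, 2 ≤ d → ∃ C : ℝ, 0 ≤ C ∧ ∀ γ : ℝ, -2 < γ → γ < 0 →
    ∀ (T : ℝ) (f : ℝ → E d → E d → ℝ), 0 < T → SolL d γ T f →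
    ContinuousOn (Lam γ 1 f) (Ico 0 T) ∧ (∀ t ∈ Ico 0 T, 0 ≤ Lam γ 1 f t) ∧
    ∀ N : ℝ, (∀ x v, f 0 x v ≤ N * P d v) →
    ∀ t ∈ Ico 0 T, ∀ x v, f t x v ≤ N * Real.exp (C * ∫ τ in (0:ℝ)..t, Lam γ 1 f τ) * P d v

/-- **LRATE** (`theorem LRATE (hf : S_LFIN) (hk : S_KKI1) (ho : S_ODE) : S_LRATE`), as RATE. -/
def S_LRATE : Prop := ∀ d : ℕ, 2 ≤ d → ∀ γ : ℝ, -2 < γ → γ < 0 → ∃ c : ℝ, 0 < c ∧
    ∀ (T : ℝ) (f : ℝ → E d → E d → ℝ), 0 < T → SolL d γ T f →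
    ∀ t₀ ∈ Ico 0 T, ∀ N : ℝ, (∀ x v, f t₀ x v ≤ N * P d v) → N * (T - t₀) ≤ c →
    (∀ t ∈ Ico t₀ T, ∀ x v, f t x v ≤ 2 * N * P d v) ∧
    ∃ B : ℝ, ∀ t ∈ Ico 0 T, ∀ x v, f t x v ≤ B * P d v

end Pool.Agent.H43.BZ
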