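import Pool.Agent.H43.BZ.Stm3

/-!
# Interface, fourth part: changing the velocity scale

`f(t,x,v) ↦ R^(d+γ-1) f(t/R, x, R v)` maps solutions to solutions, hence everything proved so far
holds at each velocity scale `R > 0`; a scale `(T-t)^(-x)` moving with time is reached through the
dyadic times `T (1 - 2^(-i))`.
-/

set_option autoImplicit false

open MeasureTheory Metric Set Filter Topology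
open scoped RealInnerProductSpace ENNReal

namespace Pool.Agent.H43.BZ

/-- the rescaled function `R^(d+γ-1) f(t/R, x, R v)` -/
noncomputable def scal {d : ℕ} (γ R : ℝ) (f : ℝ → E d → E d → ℝ) (t : ℝ) (x v : E d) : ℝ :=
  R ^ ((d : ℝ) + γ - 1) * f (t / R) x (R • v)

/-- the weight of the collision moment at velocity scale `R`; `kkR γ s 1 = kk γ s` -/
noncomputable def kkR {d : ℕ} (γ s R : ℝ) (v w : E d) : ℝ :=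
  ‖v - w‖ ^ γ * (1 + ‖w‖ / R) ^ (2 * s) / (1 + (‖v - w‖ / (R + ‖w‖)) ^ 2)

/-- the collision moment at velocity scale `R` -/
noncomputable def LamR {d : ℕ} (γ s R : ℝ) (f : ℝ → E d → E d → ℝ) (t : ℝ) : ℝ :=
  ⨆ q : E d × E d, ∫ w, f t q.1 w * kkR γ s R q.2 w

/-- **SCAL**: the rescaled function is a solution on `[0, R T)`.  Key: `J γ b (f(R·)) v (w,σ) =
R^(-γ) J γ b f (R v) (R w, σ)` (`post (Rv) (Rw) σ = R post v w σ`, `mir` and `cosa` do not change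
when `z` is replaced by `R z`), `∫ h(R w) dw = R^(-d) ∫ h(w) dw`
(`Measure.integral_comp_smul`, `integrable_comp_smul_iff`; on the product use that
`(w,σ) ↦ (R w,σ)` maps `R^(-d) •`, e.g. `Measure.map_addHaar_smul` and `Measure.prod`). -/
def S_SCAL : Prop := ∀ d : ℕ, 2 ≤ d → ∀ (γ : ℝ) (b : ℝ → ℝ), Measurable b → ∀ (T R : ℝ)
    (f : ℝ → E d → E d → ℝ), 0 < T → 0 < R → Sol d γ b T f → Sol d γ b (R * T) (scal γ R f)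

/-- **LSCAL**: the same for the Landau equation (`QL γ (g(R·)) v = R^(-(d+γ)) QL γ g (R v)`). -/
def S_LSCAL : Prop := ∀ d : ℕ, 2 ≤ d → ∀ (γ : ℝ) (T R : ℝ)
    (f : ℝ → E d → E d → ℝ), 0 < T → 0 < R → SolL d γ T f → SolL d γ (R * T) (scal γ R f)

/-- **LAMS**: `Λ` of the rescaled function: substitute `w' = R w` in the integral and `v' = R v`
in the supremum (`Equiv.iSup_comp`-type lemma; `Real.mul_iSup_of_nonneg`). -/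
def S_LAMS : Prop := ∀ d : ℕ, 2 ≤ d → ∀ (γ s R : ℝ) (f : ℝ → E d → E d → ℝ) (t : ℝ), 0 < R →
    Lam γ s (scal γ R f) t = R⁻¹ * LamR γ s R f (t / R)

/-- **KKRLE**: comparison of the weights at different scales. -/
def S_KKRLE : Prop := ∀ d : ℕ, 2 ≤ d → ∀ γ s : ℝ, 0 < s →
    (∀ R R' : ℝ, 0 < R → R ≤ R' → ∀ v w : E d,
      kkR γ s R v w ≤ (R' / R) ^ (2 * s) * kkR γ s R' v w) ∧
    (∀ R : ℝ, 0 < R → ∃ c : ℝ, 0 ≤ c ∧ ∀ v w : E d, kkR γ s R v w ≤ c * kk γ s v w)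

/-- **SFIN** (`theorem SFIN (hf : S_FINn) (hs : S_SCAL) (hl : S_LAMS) : S_SFIN`): FINn applied to
`scal γ R f`. -/
def S_SFIN : Prop := ∀ d : ℕ, 2 ≤ d → ∀ s γ K : ℝ, 0 < s → s < 1 → -(d : ℝ) < γ →
    γ + 2 * s ≤ 2 → 0 ≤ K → ∃ C : ℝ, 0 ≤ C ∧ ∀ b : ℝ → ℝ, Ker d s K b →
    ∀ (T : ℝ) (f : ℝ → E d → E d → ℝ), 0 < T → Sol d γ b T f → ∀ R : ℝ, 0 < R →
    ContinuousOn (LamR γ s R f) (Ico 0 T) ∧ (∀ t ∈ Ico 0 T, 0 ≤ LamR γ s R f t) ∧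
    ∀ N : ℝ, (∀ x v, f 0 x v ≤ N * P d (R⁻¹ • v)) →
    ∀ t ∈ Ico 0 T, ∀ x v, f t x v ≤
      N * Real.exp (C * ∫ τ in (0:ℝ)..t, LamR γ s R f τ) * P d (R⁻¹ • v)

/-- **SRATE** (`theorem SRATE (hr : S_RATE) (hs : S_SCAL) : S_SRATE`): RATE applied to
`scal γ R f` at the time `R t₀` with `N' = R^(d+γ-1) N`; the last bound from
`P d (R⁻¹ • v) ≤ (max 1 R)^(8(d+3)) P d v`, or from RATE. -/
def S_SRATE : Prop := ∀ d : ℕ, 2 ≤ d → ∀ s γ K : ℝ, 0 < s → s < 1 → -(d : ℝ) < γ →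
    γ + 2 * s ≤ 2 → 0 ≤ K → ∃ c : ℝ, 0 < c ∧ ∀ b : ℝ → ℝ, Ker d s K b →
    ∀ (T : ℝ) (f : ℝ → E d → E d → ℝ), 0 < T → Sol d γ b T f →
    ∀ t₀ ∈ Ico 0 T, ∀ N R : ℝ, 0 < R → (∀ x v, f t₀ x v ≤ N * P d (R⁻¹ • v)) →
    N * R ^ ((d : ℝ) + γ) * (T - t₀) ≤ c →
    (∀ t ∈ Ico t₀ T, ∀ x v, f t x v ≤ 2 * N * P d (R⁻¹ • v)) ∧
    ∃ B : ℝ, ∀ t ∈ Ico 0 T, ∀ x v, f t x v ≤ B * P d v

/-- **MAST** (`theorem MAST (hf : S_SFIN) (hr : S_SRATE) (hk : S_KKRLE) (hi : S_KKI)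
(hs : S_SUPn) : S_MAST`): the criterion with a moving velocity scale.  Let
`t i = T (1 - 2^(-i))`, `R i = (T - t i)^(-x)`.  For `τ ∈ [t i, t (i+1))`:
`LamR (R i) τ ≤ 4^x LamR ((T-τ)^(-x)) τ ≤ 4^x m τ` (KKRLE with `R' / R ≤ 2^x`, `2s ≤ 2`;
`BddAbove` and integrability from SUPn with `k = kkR γ s R`, KKRLE and KKI).  SFIN for the shifted
solution (`Pool.Agent.H860.BZRate.shift`) gives by induction `f (t i) ≤ N₀ exp(C 4^x ∫_0^{t i} |m|)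
P(·/R i)` as `P(·/R i) ≤ P(·/R (i+1))`.  So `f (t i) ≤ B P(·/R i)` for all `i` with
`B R_i^(d+γ) (T - t i) = B (T 2^(-i))^(1-(d+γ)x) → 0`, and SRATE applies. -/
def S_MAST : Prop := ∀ d : ℕ, 2 ≤ d → ∀ s γ K : ℝ, 0 < s → s < 1 → -(d : ℝ) < γ →
    γ + 2 * s ≤ 2 → 0 ≤ K → ∀ b : ℝ → ℝ, Ker d s K b →
    ∀ (T : ℝ) (f : ℝ → E d → E d → ℝ), 0 < T → Sol d γ b T f →
    ∀ x : ℝ, 0 ≤ x → ((d : ℝ) + γ) * x < 1 → ∀ m : ℝ → ℝ, IntegrableOn m (Ico 0 T) →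
    (∀ t ∈ Ico 0 T, LamR γ s ((T - t) ^ (-x)) f t ≤ m t) →
    ∃ B : ℝ, ∀ t ∈ Ico 0 T, ∀ x v, f t x v ≤ B * P d v

/-- **LAMRH**: for `γ ≥ 0` mass and energy bound the moment at scale `R`:
`kkR γ s R v w ≤ R^γ (1+‖w‖/R)^(γ+2s) ≤ 2 R^γ (1 + ‖w‖²/R²)` (with `r = ‖v-w‖`, `L = R+‖w‖`:
`r^γ ≤ L^γ (1+(r/L)²)`, since `t^γ ≤ 1+t²` for `0 ≤ γ ≤ 2`). -/
def S_LAMRH : Prop := ∀ d : ℕ, 2 ≤ d → ∀ s γ R : ℝ, 0 < s → s < 1 → 0 ≤ γ → γ + 2 * s ≤ 2 →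
    0 < R → ∀ (f : ℝ → E d → E d → ℝ) (t A₁ A₂ : ℝ), (∀ x v, 0 ≤ f t x v) →
    (∀ x, Measurable (f t x)) → (∀ x, Integrable (fun v => f t x v * (1 + ‖v‖) ^ (2 : ℕ))) →
    (∀ x, ∫ v, f t x v ≤ A₁) → (∀ x, ∫ v, f t x v * ‖v‖ ^ 2 ≤ A₂) →
    LamR γ s R f t ≤ 2 * R ^ γ * (A₁ + A₂ / R ^ 2)

/-- **POW** (calculus): a choice of the moving scale.  Take `x < 1/(d+γ)` close to `1/(d+γ)`. -/
def S_POW : Prop := ∀ (d : ℕ) (γ T A a e : ℝ), 2 ≤ d → 0 ≤ γ → γ < 2 → 0 < T →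
    a < d / (d + γ) → e < (d + 2) / (d + γ) →
    ∃ x : ℝ, 0 ≤ x ∧ ((d : ℝ) + γ) * x < 1 ∧
      IntegrableOn (fun t => 2 * ((T - t) ^ (-x)) ^ γ *
        (A * (T - t) ^ (-a) + A * (T - t) ^ (-e) / ((T - t) ^ (-x)) ^ 2)) (Ico 0 T)

/-- **ARI** (arithmetic): the isentropic Euler implosion exponents, `1 < r ≤ 2d/(d+√d)`. -/
def S_ARI : Prop := ∀ (d : ℕ) (γ r : ℝ), -(d : ℝ) < γ → (d = 2 ∧ γ < 2 ∨ d = 3 ∧ γ < √3) → 1 < r →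
    r ≤ 2 * d / (d + √d) → ((d : ℝ) + γ) * (1 - 1 / r) < 1 ∧
    (0 ≤ γ → (d : ℝ) * (1 - 1 / r) < d / (d + γ) ∧
      ((d : ℝ) + 2) * (1 - 1 / r) < (d + 2) / (d + γ))

/-- **LSFIN** (from LFIN, LSCAL, LAMS), as SFIN, for Landau. -/
def S_LSFIN : Prop := ∀ d : ℕ, 2 ≤ d → ∃ C : ℝ, 0 ≤ C ∧ ∀ γ : ℝ, -2 < γ → γ < 0 →
    ∀ (T : ℝ) (f : ℝ → E d → E d → ℝ), 0 < T → SolL d γ T f → ∀ R : ℝ, 0 < R →
    ContinuousOn (LamR γ 1 R f) (Ico 0 T) ∧ (∀ t ∈ Ico 0 T, 0 ≤ LamR γ 1 R f t) ∧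
    ∀ N : ℝ, (∀ x v, f 0 x v ≤ N * P d (R⁻¹ • v)) →
    ∀ t ∈ Ico 0 T, ∀ x v, f t x v ≤
      N * Real.exp (C * ∫ τ in (0:ℝ)..t, LamR γ 1 R f τ) * P d (R⁻¹ • v)

/-- **LSRATE** (from LRATE, LSCAL), as SRATE, for Landau. -/
def S_LSRATE : Prop := ∀ d : ℕ, 2 ≤ d → ∀ γ : ℝ, -2 < γ → γ < 0 → ∃ c : ℝ, 0 < c ∧
    ∀ (T : ℝ) (f : ℝ → E d → E d → ℝ), 0 < T → SolL d γ T f →
    ∀ t₀ ∈ Ico 0 T, ∀ N R : ℝ, 0 < R → (∀ x v, f t₀ x v ≤ N * P d (R⁻¹ • v)) →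
    N * R ^ ((d : ℝ) + γ) * (T - t₀) ≤ c →
    (∀ t ∈ Ico t₀ T, ∀ x v, f t x v ≤ 2 * N * P d (R⁻¹ • v)) ∧
    ∃ B : ℝ, ∀ t ∈ Ico 0 T, ∀ x v, f t x v ≤ B * P d v

/-- **LMAST** (`theorem LMAST (hf : S_LSFIN) (hr : S_LSRATE) (hk : S_KKRLE) (hi : S_KKI1)
(hs : S_SUPn) : S_LMAST`), as MAST, for Landau. -/
def S_LMAST : Prop := ∀ d : ℕ, 2 ≤ d → ∀ γ : ℝ, -2 < γ → γ < 0 →
    ∀ (T : ℝ) (f : ℝ → E d → E d → ℝ), 0 < T → SolL d γ T f →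
    ∀ x : ℝ, 0 ≤ x → ((d : ℝ) + γ) * x < 1 → ∀ m : ℝ → ℝ, IntegrableOn m (Ico 0 T) →
    (∀ t ∈ Ico 0 T, LamR γ 1 ((T - t) ^ (-x)) f t ≤ m t) →
    ∃ B : ℝ, ∀ t ∈ Ico 0 T, ∀ x v, f t x v ≤ B * P d v

end Pool.Agent.H43.BZ
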